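import Pool.Agent.TH306.IX.Conv

set_option autoImplicit false
set_option linter.unusedSectionVars false
set_option linter.unusedVariables false

/-!
# Project SD, job K3: invariance under complex conjugation
-/

namespace Pool.Agent.TH306.IX

open Module MeasureTheory Filter Pool.Agent.TH179.SD
open scoped InnerProductSpace Matrix

noncomputable section

theorem cj_cont : Continuous cj :=
  Continuous.subtype_mk (continuous_pi fun i =>
    Complex.continuous_conj.comp ((continuous_apply i).comp continuous_subtype_val)) _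

theorem cj_cj (z : Z) : cj (cj z) = z := by
  apply Subtype.ext
  funext i
  simp [cj]

/-- conjugation as a continuous map -/
def ccj : C(Z, Z) := ⟨cj, cj_cont⟩

theorem mono_cj (α : Fin 5 → ℕ) (z : Z) : mono α (cj z) = (starRingEnd ℂ) (mono α z) := by
  unfold mono
  rw [map_prod]
  refine Finset.prod_congr rfl fun i _ => ?_
  rw [map_pow]
  rfl

/-- products of monomials and their conjugates -/
def Pset : Set C(Z, ℂ) := {g | ∃ α β, g = cmono α * star (cmono β)}

theorem cmono_mul (α β : Fin 5 → ℕ) : cmono α * cmono β = cmono (α + β) := by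
  ext z
  rw [ContinuousMap.mul_apply, cmono_apply, cmono_apply, cmono_apply]
  unfold mono
  rw [← Finset.prod_mul_distrib]
  refine Finset.prod_congr rfl fun i _ => ?_
  rw [Pi.add_apply, pow_add]

theorem cmono_zero : cmono 0 = 1 := by
  ext z
  rw [cmono_apply]
  unfold mono
  simp

theorem Pset_mul {x y : C(Z, ℂ)} (hx : x ∈ Pset) (hy : y ∈ Pset) : x * y ∈ Pset := by
  obtain ⟨α, β, rfl⟩ := hx
  obtain ⟨γ, δ, rfl⟩ := hy
  refine ⟨α + γ, β + δ, ?_⟩
  rw [← cmono_mul, ← cmono_mul, star_mul]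
  ring

theorem Pset_star {x : C(Z, ℂ)} (hx : x ∈ Pset) : star x ∈ Pset := by
  obtain ⟨α, β, rfl⟩ := hx
  refine ⟨β, α, ?_⟩
  rw [star_mul, star_star]

theorem M_mul {x y : C(Z, ℂ)} (hx : x ∈ Submodule.span ℂ Pset) (hy : y ∈ Submodule.span ℂ Pset) :
    x * y ∈ Submodule.span ℂ Pset := by
  have h1 := Submodule.mul_mem_mul hx hy
  rw [Submodule.span_mul_span] at h1
  refine Submodule.span_mono ?_ h1
  rintro _ ⟨a, ha, b, hb, rfl⟩
  exact Pset_mul ha hb

theorem M_star {x : C(Z, ℂ)} (hx : x ∈ Submodule.span ℂ Pset) : star x ∈ Submodule.span ℂ Pset := by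
  induction hx using Submodule.span_induction with
  | mem x hx => exact Submodule.subset_span (Pset_star hx)
  | zero => rw [star_zero]; exact Submodule.zero_mem _
  | add x y _ _ hx hy => rw [star_add]; exact Submodule.add_mem _ hx hy
  | smul c x _ hx => rw [star_smul]; exact Submodule.smul_mem _ _ hx

theorem one_mem_Pset : (1 : C(Z, ℂ)) ∈ Pset := ⟨0, 0, by rw [cmono_zero, star_one, mul_one]⟩

/-- the algebra of all polynomials -/
def SA : StarSubalgebra ℂ C(Z, ℂ) where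
  carrier := Submodule.span ℂ Pset
  mul_mem' := M_mul
  one_mem' := Submodule.subset_span one_mem_Pset
  add_mem' := fun h1 h2 => Submodule.add_mem _ h1 h2
  zero_mem' := Submodule.zero_mem _
  algebraMap_mem' := fun r => by
    rw [Algebra.algebraMap_eq_smul_one]
    exact Submodule.smul_mem _ r (Submodule.subset_span one_mem_Pset)
  star_mem' := M_star

theorem SA_sep : SA.SeparatesPoints := by
  intro z w hzw
  have h1 : ∃ i, z.1 i ≠ w.1 i := by
    by_contra h
    push Not at h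
    exact hzw (Subtype.ext (funext h))
  obtain ⟨i, hi⟩ := h1
  have h2 : ∀ z : Z, cmono (Pi.single i 1) z = z.1 i := by
    intro z
    rw [cmono_apply]
    unfold mono
    rw [Finset.prod_eq_single i]
    · rw [Pi.single_eq_same, pow_one]
    · intro j _ hj
      rw [Pi.single_eq_of_ne hj, pow_zero]
    · intro h; exact absurd (Finset.mem_univ _) h
  refine ⟨cmono (Pi.single i 1), ⟨cmono (Pi.single i 1), ?_, rfl⟩, ?_⟩
  · refine Submodule.subset_span ⟨Pi.single i 1, 0, ?_⟩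
    rw [cmono_zero, star_one, mul_one]
  · rw [h2, h2]
    exact hi

variable {μ : Measure Z} [IsProbabilityMeasure μ]

theorem integral_T2 (g : C(Z, ℂ)) : ∫ z, g z ∂μ = ⟪T2 μ 1, T2 μ g⟫_ℂ := by
  rw [inner_T2]
  simp

theorem cj_inv (hM : Mom μ) (g : C(Z, ℂ)) : ∫ z, g (cj z) ∂μ = ∫ z, g z ∂μ := by
  let K : Set C(Z, ℂ) := {g | ∫ z, g (cj z) ∂μ = ∫ z, g z ∂μ}
  have hcont : Continuous (fun g : C(Z, ℂ) => T2 μ g) :=
    (ContinuousMap.toLp (E := ℂ) 2 μ ℂ).continuous
  have hint : ∀ g : C(Z, ℂ), Integrable g μ := fun g =>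
    g.continuous.integrable_of_hasCompactSupport (HasCompactSupport.of_compactSpace _)
  have h1 : IsClosed K := by
    have e1 : K = {g | ⟪T2 μ 1, T2 μ (g.comp ccj)⟫_ℂ = ⟪T2 μ 1, T2 μ g⟫_ℂ} := by
      ext g
      rw [Set.mem_ofPred_eq, Set.mem_ofPred_eq, ← integral_T2, ← integral_T2]
      rfl
    rw [e1]
    apply isClosed_eq
    · exact continuous_const.inner (hcont.comp (ContinuousMap.continuous_precomp ccj))
    · exact continuous_const.inner hcont
  have h2 : (SA : Set C(Z, ℂ)) ⊆ K := by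
    intro g hg
    have hg' : g ∈ Submodule.span ℂ Pset := hg
    induction hg' using Submodule.span_induction with
    | mem x hx =>
      obtain ⟨α, β, rfl⟩ := hx
      show ∫ z, (cmono α * star (cmono β)) (cj z) ∂μ = ∫ z, (cmono α * star (cmono β)) z ∂μ
      have e1 : ∀ z, (cmono α * star (cmono β)) (cj z) = mono β z * (starRingEnd ℂ) (mono α z) := by
        intro z
        show mono α (cj z) * (starRingEnd ℂ) (mono β (cj z)) = _
        rw [mono_cj, mono_cj, Complex.conj_conj, mul_comm]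
      have e2 : ∀ z, (cmono α * star (cmono β)) z = mono α z * (starRingEnd ℂ) (mono β z) :=
        fun z => rfl
      simp only [e1, e2]
      rw [mom_wt hM, mom_wt hM]
      by_cases h : α = β
      · subst h; rfl
      · rw [if_neg h, if_neg (Ne.symm h)]
    | zero => show ∫ z, (0 : C(Z, ℂ)) (cj z) ∂μ = ∫ z, (0 : C(Z, ℂ)) z ∂μ; simp
    | add x y hx' hy' hx hy =>
      show ∫ z, ((x.comp ccj) z + (y.comp ccj) z) ∂μ = ∫ z, (x z + y z) ∂μ
      have a1 : ∫ z, x (cj z) ∂μ = ∫ z, x z ∂μ := hx hx'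
      have a2 : ∫ z, y (cj z) ∂μ = ∫ z, y z ∂μ := hy hy'
      rw [integral_add (hint x) (hint y), integral_add (hint (x.comp ccj)) (hint (y.comp ccj)),
        ← a1, ← a2]
      rfl
    | smul c x hx' hx =>
      show ∫ z, (c * x (cj z)) ∂μ = ∫ z, (c * x z) ∂μ
      have a1 : ∫ z, x (cj z) ∂μ = ∫ z, x z ∂μ := hx hx'
      rw [integral_const_mul, integral_const_mul, a1]
  have h3 : SA.topologicalClosure = ⊤ :=
    ContinuousMap.starSubalgebra_topologicalClosure_eq_top_of_separatesPoints SA SA_sep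
  have h4 : g ∈ SA.topologicalClosure := by rw [h3]; trivial
  have h5 : g ∈ closure (SA : Set C(Z, ℂ)) := h4
  exact closure_minimal h2 h1 h5

/-- the antilinear involution -/
def Jl : C(Z, ℂ) →ₛₗ[starRingEnd ℂ] C(Z, ℂ) where
  toFun g := star (g.comp ccj)
  map_add' g h := by ext z; simp
  map_smul' c g := by ext z; simp

theorem Jl_apply (g : C(Z, ℂ)) (z : Z) : Jl g z = (starRingEnd ℂ) (g (cj z)) := rfl

theorem Jl_mul (g h : C(Z, ℂ)) : Jl (g * h) = Jl g * Jl h := by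
  ext z
  simp [Jl_apply]

theorem Jl_Jl (g : C(Z, ℂ)) : Jl (Jl g) = g := by
  ext z
  rw [Jl_apply, Jl_apply, cj_cj, Complex.conj_conj]

theorem norm_Jl (hM : Mom μ) (g : C(Z, ℂ)) : ‖T2 μ (Jl g)‖ = ‖T2 μ g‖ := by
  have h1 := inner_self_eq_norm_sq_to_K (𝕜 := ℂ) (T2 μ (Jl g))
  have h2 := inner_self_eq_norm_sq_to_K (𝕜 := ℂ) (T2 μ g)
  have h3 : ⟪T2 μ (Jl g), T2 μ (Jl g)⟫_ℂ = ⟪T2 μ g, T2 μ g⟫_ℂ := by
    rw [inner_T2, inner_T2]
    have h4 := cj_inv hM (g * star g)
    refine Eq.trans ?_ h4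
    congr 1
    ext z
    rw [Jl_apply, Complex.conj_conj, mul_comm]
    rfl
  rw [h1, h2] at h3
  change ((‖T2 μ (Jl g)‖ : ℝ) : ℂ) ^ 2 = ((‖T2 μ g‖ : ℝ) : ℂ) ^ 2 at h3
  have h5 : ‖T2 μ (Jl g)‖ ^ 2 = ‖T2 μ g‖ ^ 2 := by exact_mod_cast h3
  exact (pow_left_inj₀ (norm_nonneg _) (norm_nonneg _) two_ne_zero).1 h5

theorem Jl_mem (k : ℤ) (g : C(Z, ℂ))
    (hg : g ∈ Submodule.span ℂ (Set.range fun α : MI k => cmono α.1)) :
    Jl g ∈ Submodule.span ℂ (Set.range fun α : MI k => cmono α.1) := by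
  induction hg using Submodule.span_induction with
  | mem x hx =>
    obtain ⟨α, rfl⟩ := hx
    have : Jl (cmono α.1) = cmono α.1 := by
      ext z
      rw [Jl_apply, cmono_apply, mono_cj, Complex.conj_conj, cmono_apply]
    simp only [this]
    exact Submodule.subset_span ⟨α, rfl⟩
  | zero => rw [map_zero]; exact Submodule.zero_mem _
  | add x y _ _ hx hy => rw [map_add]; exact Submodule.add_mem _ hx hy
  | smul c x _ hx => rw [map_smulₛₗ]; exact Submodule.smul_mem _ _ hx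

/-- the antilinear involution on vectors -/
def JJ (ι : Type) : (ι → C(Z, ℂ)) →ₛₗ[starRingEnd ℂ] (ι → C(Z, ℂ)) where
  toFun w i := Jl (w i)
  map_add' g h := by funext i; simp
  map_smul' c g := by funext i; simp

theorem JJ_apply (ι : Type) (w : ι → C(Z, ℂ)) (i : ι) : JJ ι w i = Jl (w i) := rfl

theorem JJ_JJ (ι : Type) (w : ι → C(Z, ℂ)) : JJ ι (JJ ι w) = w := by
  funext i
  rw [JJ_apply, JJ_apply, Jl_Jl]

theorem norm_JJ (hM : Mom μ) (ι : Type) [Fintype ι] (w : ι → C(Z, ℂ)) :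
    ‖jm μ ι (JJ ι w)‖ = ‖jm μ ι w‖ := by
  have h : ‖jm μ ι (JJ ι w)‖ ^ 2 = ‖jm μ ι w‖ ^ 2 := by
    rw [norm_jm_sq, norm_jm_sq]
    refine Finset.sum_congr rfl fun i _ => ?_
    rw [JJ_apply, norm_Jl hM]
  exact (pow_left_inj₀ (norm_nonneg _) (norm_nonneg _) two_ne_zero).1 h

theorem finrank_comap_JJ (ι : Type) (P : Submodule ℂ (ι → C(Z, ℂ))) :
    finrank ℂ (P.comap (JJ ι)) = finrank ℂ P := by
  let j : (P.comap (JJ ι)) ≃+ P :=
    { toFun := fun x => ⟨JJ ι x.1, x.2⟩
      invFun := fun y => ⟨JJ ι y.1, by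
        rw [Submodule.mem_comap, JJ_JJ]; exact y.2⟩
      left_inv := fun x => Subtype.ext (JJ_JJ ι _)
      right_inv := fun x => Subtype.ext (JJ_JJ ι _)
      map_add' := fun x y => Subtype.ext (map_add (JJ ι) x.1 y.1) }
  have h := rank_eq_of_equiv_equiv (starRingEnd ℂ : ℂ → ℂ) j
    (Function.Involutive.bijective Complex.conj_conj)
    (fun r m => Subtype.ext (map_smulₛₗ (JJ ι) r m.1))
  unfold Module.finrank
  rw [h]

variable (hM : Mom μ) (hA : Asym μ)

theorem decS_JJ {ι : Type} [Fintype ι] [DecidableEq ι] (a : ι → ℤ) (k : ℤ) (e e' : Matrix ι ι C(Z, ℂ))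
    (he : ∀ i j, e' i j = Jl (e i j)) {P Q : Submodule ℂ (ι → C(Z, ℂ))} {δ : ℝ}
    (h : DecS (jm μ ι) (act e) ((S1 hM hA).V a k) P Q δ) :
    DecS (jm μ ι) (act e') ((S1 hM hA).V a k) (P.comap (JJ ι)) (Q.comap (JJ ι)) δ := by
  obtain ⟨a1, a2, a3, a4, a5, a6⟩ := h
  have hV : ∀ w ∈ (S1 hM hA).V a k, JJ ι w ∈ (S1 hM hA).V a k := by
    intro w hw
    rw [(S1 hM hA).mem_V] at hw ⊢
    intro i
    exact Jl_mem _ _ (hw i)
  have hE : ∀ w : ι → C(Z, ℂ), act e' w = JJ ι (act e (JJ ι w)) := by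
    intro w
    funext i
    rw [JJ_apply, act_apply, act_apply, Matrix.mulVec, Matrix.mulVec, dotProduct, dotProduct,
      map_sum]
    refine Finset.sum_congr rfl fun j _ => ?_
    rw [Jl_mul, JJ_apply, Jl_Jl, he]
  refine ⟨?_, ?_, ?_, ?_, ?_, ?_⟩
  · intro w hw
    have := hV _ (a1 hw)
    rwa [JJ_JJ] at this
  · intro w hw
    have := hV _ (a2 hw)
    rwa [JJ_JJ] at this
  · rw [eq_bot_iff]
    rintro w ⟨h4, h5⟩
    have h6 : JJ ι w ∈ P ⊓ Q := ⟨h4, h5⟩
    rw [a3, Submodule.mem_bot] at h6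
    have h7 := JJ_JJ ι w
    rw [h6, map_zero] at h7
    rw [← h7]
    exact Submodule.zero_mem _
  · apply le_antisymm
    · apply sup_le
      · intro w hw
        have := hV _ (a1 hw)
        rwa [JJ_JJ] at this
      · intro w hw
        have := hV _ (a2 hw)
        rwa [JJ_JJ] at this
    · intro w hw
      have h4 : JJ ι w ∈ P ⊔ Q := by
        rw [a4]; exact hV w hw
      obtain ⟨y, hy, z, hz, hyz⟩ := Submodule.mem_sup.1 h4
      rw [Submodule.mem_sup]
      refine ⟨JJ ι y, ?_, JJ ι z, ?_, ?_⟩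
      · rw [Submodule.mem_comap, JJ_JJ]; exact hy
      · rw [Submodule.mem_comap, JJ_JJ]; exact hz
      · rw [← map_add, hyz, JJ_JJ]
  · intro w hw
    have h4 := a5 _ hw
    rw [← map_sub] at h4 ⊢
    have h5 : act e' w - w = JJ ι (act e (JJ ι w) - JJ ι w) := by
      rw [map_sub, JJ_JJ, hE]
    rw [h5, norm_JJ hM, ← norm_JJ hM ι w]
    exact h4
  · intro w hw
    have h4 := a6 _ hw
    rw [hE, norm_JJ hM, ← norm_JJ hM ι w]
    exact h4

theorem flat_ff (A : Bun) : ∃ K : ℤ, ∀ k, K ≤ k → ff hM hA A.flat k = ff hM hA A.conj k := by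
  have e1 := (tB hM hA A.flat).idx_spec (δ := 1/4) (by norm_num)
  obtain ⟨K, hK⟩ := ev1 e1
  refine ⟨K, fun k hk => ?_⟩
  obtain ⟨P, Q, h1, h2⟩ := hK k hk
  have h3 : (tB hM hA A.conj).Dec k (P.comap (JJ A.ι)) (Q.comap (JJ A.ι)) (1/4) := by
    refine decS_JJ hM hA (fun i => -A.a i) k (tB hM hA A.flat).e (tB hM hA A.conj).e ?_ h1
    intro i j
    ext z
    rw [Jl_apply]
    show (starRingEnd ℂ) (A.e z i j) = (starRingEnd ℂ) (A.e (cj (cj z)) i j)
    rw [cj_cj]
  have h4 : (tB hM hA A.conj).idx k = (tB hM hA A.flat).idx k := by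
    rw [(tB hM hA A.conj).idx_eq h3 le_rfl, ← h2]
    exact finrank_comap_JJ A.ι P
  unfold ff
  rw [h4]

/-- Task K3 -/
theorem taskIndex : TaskIndex := by
  intro μ hM hA
  have := hM.prob
  exact ⟨FF hM hA, ff hM hA,
    { iso2 := iso_FF hM hA
      sum2 := sum_FF hM hA
      shift2 := shift_FF hM hA
      x := x_FF hM hA
      y := y_FF hM hA
      iso := iso_ff hM hA
      sum := sum_ff hM hA
      shift := shift_ff hM hA
      triv := fun ι _ _ a => triv_ff hM hA ι a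
      flat := flat_ff hM hA }⟩

end

end Pool.Agent.TH306.IX
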