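import Pool.Agent.TH306.IX.Core

set_option autoImplicit false

/-!
# Project SD, job K3: comparison of dimensions
-/

namespace Pool.Agent.TH306.IX

open Module Submodule
open scoped InnerProductSpace

noncomputable section

variable {H W : Type*} [NormedAddCommGroup H] [InnerProductSpace ℂ H] [AddCommGroup W] [Module ℂ W]
variable {H' W' : Type*} [NormedAddCommGroup H'] [InnerProductSpace ℂ H'] [AddCommGroup W']
  [Module ℂ W']

theorem DecS.finrank_add {j : W →ₗ[ℂ] H} {E : W →ₗ[ℂ] W} {V S T : Submodule ℂ W} {δ : ℝ}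
    [FiniteDimensional ℂ V] (h : DecS j E V S T δ) :
    finrank ℂ S + finrank ℂ T = finrank ℂ V := by
  obtain ⟨a, b, c, d, _, _⟩ := h
  have := Submodule.finiteDimensional_of_le a
  have := Submodule.finiteDimensional_of_le b
  have h1 := Submodule.finrank_sup_add_finrank_inf_eq S T
  rw [c, d, finrank_bot] at h1
  omega

theorem DecS.unique_le {j : W →ₗ[ℂ] H} {E : W →ₗ[ℂ] W} {V S T S' T' : Submodule ℂ W}
    [FiniteDimensional ℂ V] (hj : ∀ f ∈ V, j f = 0 → f = 0)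
    (h : DecS j E V S T (1/4)) (h' : DecS j E V S' T' (1/4)) : finrank ℂ S ≤ finrank ℂ S' := by
  have h1 := h'.finrank_add
  obtain ⟨a, b, c, d, e, g⟩ := h
  obtain ⟨a', b', c', d', e', g'⟩ := h'
  have := Submodule.finiteDimensional_of_le a
  have := Submodule.finiteDimensional_of_le b'
  have h2 : S ⊓ T' = ⊥ := by
    rw [eq_bot_iff]
    rintro f ⟨hf1, hf2⟩
    have k1 := e f hf1
    have k2 := g' f hf2
    have k3 : ‖j f‖ ≤ ‖j (E f)‖ + ‖j (E f) - j f‖ := by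
      have : j f = j (E f) - (j (E f) - j f) := by abel
      calc ‖j f‖ = ‖j (E f) - (j (E f) - j f)‖ := by rw [← this]
        _ ≤ _ := norm_sub_le _ _
    have k4 : ‖j f‖ = 0 := by
      have := norm_nonneg (j f)
      linarith
    exact hj f (a hf1) (norm_eq_zero.1 k4)
  have h3 := Submodule.finrank_sup_add_finrank_inf_eq S T'
  rw [h2, finrank_bot] at h3
  have h4 : finrank ℂ (S ⊔ T' : Submodule ℂ W) ≤ finrank ℂ V :=
    Submodule.finrank_mono (sup_le a b')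
  omega

theorem DecS.unique {j : W →ₗ[ℂ] H} {E : W →ₗ[ℂ] W} {V S T S' T' : Submodule ℂ W} {δ δ' : ℝ}
    [FiniteDimensional ℂ V] (hj : ∀ f ∈ V, j f = 0 → f = 0) (hd : δ ≤ 1/4) (hd' : δ' ≤ 1/4)
    (h : DecS j E V S T δ) (h' : DecS j E V S' T' δ') : finrank ℂ S = finrank ℂ S' :=
  le_antisymm ((h.mono hd).unique_le hj (h'.mono hd')) ((h'.mono hd').unique_le hj (h.mono hd))

theorem DecS.compare {j : W →ₗ[ℂ] H} {E : W →ₗ[ℂ] W} {V S T : Submodule ℂ W}
    {j' : W' →ₗ[ℂ] H'} {E' : W' →ₗ[ℂ] W'} {V' S' T' : Submodule ℂ W'} {δ : ℝ}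
    [FiniteDimensional ℂ V] [FiniteDimensional ℂ V']
    (hj : ∀ f ∈ V, j f = 0 → f = 0) (hj' : ∀ f ∈ V', j' f = 0 → f = 0)
    (h : DecS j E V S T δ) (h' : DecS j' E' V' S' T' δ) (hδ : 0 ≤ δ)
    (U : W →ₗ[ℂ] W') (U' : W' →ₗ[ℂ] W) (hU1 : ∀ f, U' (U f) = E f) (hU2 : ∀ f, U (U' f) = E' f)
    (hE : ∀ f, E (E f) = E f) (C ε : ℝ) (hC : 0 ≤ C) (hCU : ∀ f, ‖j' (U f)‖ ≤ C * ‖j f‖)
    (hCU' : ∀ f, ‖j (U' f)‖ ≤ C * ‖j' f‖) (hE' : ∀ f, ‖j' (E' f)‖ ≤ ‖j' f‖)
    (hnear : ∀ f ∈ V, ∃ g ∈ V', ‖j' (U f) - j' g‖ ≤ ε * ‖j f‖)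
    (hsmall : C * (δ * C + ε) + δ < 1) : finrank ℂ S ≤ finrank ℂ S' := by
  obtain ⟨ψ, p1, p2, p3⟩ := exists_lin j' V' hj'
  have hadd := h'.finrank_add
  obtain ⟨a, b, c, d, e, g⟩ := h
  obtain ⟨a', b', c', d', e', g'⟩ := h'
  have := Submodule.finiteDimensional_of_le a
  have := Submodule.finiteDimensional_of_le b'
  have key : ∀ f ∈ S, ψ (j' (U f)) ∈ T' → f = 0 := by
    intro f hf hg
    obtain ⟨g0, hg0, hg1⟩ := hnear f (a hf)
    set φ := ψ (j' (U f)) with hφ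
    have k1 : ‖j' (U f) - j' φ‖ ≤ ε * ‖j f‖ := (psi_best p1 p2 _ hg0).trans hg1
    have k2 : ‖j' φ‖ ≤ C * ‖j f‖ := (psi_le p1 p2 _).trans (hCU f)
    have k3 := g' φ hg
    have k4 : j (E f) = j (U' (E' (U f))) := by
      rw [← hU2 (U f), hU1, hU1, hE]
    have k5 : ‖j' (E' (U f))‖ ≤ ‖j' (E' φ)‖ + ‖j' (E' (U f - φ))‖ := by
      have : j' (E' (U f)) = j' (E' φ) + j' (E' (U f - φ)) := by
        rw [← map_add, ← map_add]; congr 2; abel
      rw [this]; exact norm_add_le _ _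
    have k6 : ‖j' (E' (U f - φ))‖ ≤ ε * ‖j f‖ := by
      refine (hE' _).trans ?_
      rw [map_sub]; exact k1
    have k7 : ‖j (E f)‖ ≤ C * ((δ * C + ε) * ‖j f‖) := by
      rw [k4]
      refine (hCU' _).trans ?_
      apply mul_le_mul_of_nonneg_left _ hC
      refine k5.trans ?_
      have : δ * ‖j' φ‖ ≤ δ * (C * ‖j f‖) := by gcongr
      linarith
    have k8 : ‖j f‖ ≤ ‖j (E f)‖ + ‖j (E f) - j f‖ := by
      have : j f = j (E f) - (j (E f) - j f) := by abel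
      calc ‖j f‖ = ‖j (E f) - (j (E f) - j f)‖ := by rw [← this]
        _ ≤ _ := norm_sub_le _ _
    have k9 := e f hf
    have k10 : ‖j f‖ = 0 := by
      have h0 := norm_nonneg (j f)
      by_contra hne
      have hpos : 0 < ‖j f‖ := lt_of_le_of_ne h0 (Ne.symm hne)
      have : ‖j f‖ ≤ (C * (δ * C + ε) + δ) * ‖j f‖ := by linarith
      nlinarith
    exact hj f (a hf) (norm_eq_zero.1 k10)
  let L : (S × T') →ₗ[ℂ] V' :=
    ((ψ.comp (j'.comp (U.comp (S.subtype.comp (LinearMap.fst ℂ S T')))) +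
      T'.subtype.comp (LinearMap.snd ℂ S T')).codRestrict V' (fun x =>
        V'.add_mem (p1 _) (b' x.2.2)))
  have hL : Function.Injective L := by
    rw [injective_iff_map_eq_zero]
    rintro ⟨f, t⟩ hft
    have h0 : ψ (j' (U f.1)) + t.1 = 0 := congrArg Subtype.val hft
    have h1 : ψ (j' (U f.1)) ∈ T' := by
      rw [eq_neg_of_add_eq_zero_left h0]; exact T'.neg_mem t.2
    have h2 := key f.1 f.2 h1
    rw [h2, map_zero, map_zero, map_zero, zero_add] at h0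
    exact Prod.ext (Subtype.ext h2) (Subtype.ext h0)
  have h5 := LinearMap.finrank_le_finrank_of_injective hL
  rw [Module.finrank_prod] at h5
  omega

end

end Pool.Agent.TH306.IX
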