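import Pool.Agent.TH306.IX.Tens
import Pool.Agent.TH179.SD.Kth

set_option autoImplicit false
set_option linter.unusedSectionVars false
set_option linter.unusedVariables false

/-!
# Project SD, job K3: the systems of polynomials on `S⁹` and `S⁹ × S⁹`
-/

namespace Pool.Agent.TH306.IX

open Module MeasureTheory Filter Pool.Agent.TH179.SD
open scoped InnerProductSpace Matrix

noncomputable section

instance compactZ : CompactSpace Z := by
  have h : IsCompact {z : C5 | ∑ i, ‖z i‖ ^ 2 = 1} := by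
    apply Metric.isCompact_of_isClosed_isBounded
    · exact isClosed_eq (by fun_prop) continuous_const
    · refine (Metric.isBounded_closedBall (x := (0 : C5)) (r := 1)).subset ?_
      intro z hz
      rw [mem_closedBall_zero_iff, pi_norm_le_iff_of_nonneg zero_le_one]
      intro i
      have hz' : ∑ i, ‖z i‖ ^ 2 = 1 := hz
      have h1 : ‖z i‖ ^ 2 ≤ 1 := by
        rw [← hz']
        exact Finset.single_le_sum (f := fun i => ‖z i‖ ^ 2) (fun i _ => sq_nonneg _)
          (Finset.mem_univ i)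
      nlinarith [norm_nonneg (z i)]
  exact isCompact_iff_compactSpace.1 h

/-- monomials as continuous functions -/
def cmono (α : Fin 5 → ℕ) : C(Z, ℂ) := ⟨mono α, by
  unfold mono
  exact continuous_finsetProd _ fun i _ =>
    ((continuous_apply i).comp continuous_subtype_val).pow _⟩

theorem cmono_apply (α : Fin 5 → ℕ) (z : Z) : cmono α z = mono α z := rfl

/-- multi-indices of degree `k` -/
def MI (k : ℤ) : Type := {α : Fin 5 → ℕ // ((∑ i, α i : ℕ) : ℤ) = k}

instance decMI (k : ℤ) : DecidableEq (MI k) :=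
  inferInstanceAs (DecidableEq {α : Fin 5 → ℕ // ((∑ i, α i : ℕ) : ℤ) = k})

/-- multi-indices and symmetric powers -/
def MIequiv (n : ℕ) : MI n ≃ Sym (Fin 5) n :=
  ((Sym.equivNatSumOfFintype (Fin 5) n).trans
    (Equiv.subtypeEquivRight fun α => by rw [Nat.cast_inj])).symm

instance finMI (k : ℤ) : Finite (MI k) := by
  rcases lt_or_ge k 0 with h | h
  · have : IsEmpty (MI k) := ⟨fun α => by
      have := α.2
      omega⟩
    infer_instance
  · lift k to ℕ using h
    exact Finite.of_equiv _ (MIequiv k).symm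

instance fintMI (k : ℤ) : Fintype (MI k) := Fintype.ofFinite _

theorem card_MI (k : ℤ) (hk : 0 ≤ k) : (Fintype.card (MI k) : ℚ) = Bq k := by
  lift k to ℕ using hk
  rw [Fintype.card_congr (MIequiv k), Sym.card_sym_eq_choose, Fintype.card_fin]
  have h1 : 5 + k - 1 = k + 4 := by omega
  rw [h1, Nat.choose_symm_add]
  have h2 := Nat.descFactorial_eq_factorial_mul_choose (k + 4) 4
  have h3 : (k + 4).descFactorial 4 = (k + 4) * ((k + 3) * ((k + 2) * ((k + 1) * 1))) := by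
    rw [Nat.succ_descFactorial_succ, Nat.succ_descFactorial_succ, Nat.succ_descFactorial_succ,
      Nat.succ_descFactorial_succ, Nat.descFactorial_zero]
  rw [h3] at h2
  have h4 : ((k + 4).choose 4 : ℚ) * 24 = (k + 4) * ((k + 3) * ((k + 2) * ((k + 1) * 1))) := by
    have h5 : (Nat.factorial 4 : ℕ) = 24 := rfl
    rw [h5] at h2
    have h6 : (((k + 4) * ((k + 3) * ((k + 2) * ((k + 1) * 1))) : ℕ) : ℚ) =
      ((24 * (k + 4).choose 4 : ℕ) : ℚ) := by rw [h2]
    push_cast at h6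
    linarith
  unfold Bq
  push_cast
  linarith

section ortho

variable {X : Type} [TopologicalSpace X] [CompactSpace X] [MeasurableSpace X] [BorelSpace X]
  {ν : Measure X} [IsFiniteMeasure ν] {B : Type} [Fintype B]

theorem ortho_li (v : B → C(X, ℂ)) (h0 : ∀ b, ⟪T2 ν (v b), T2 ν (v b)⟫_ℂ ≠ 0)
    (h : ∀ b b', b ≠ b' → ⟪T2 ν (v b), T2 ν (v b')⟫_ℂ = 0) :
    LinearIndependent ℂ (T2 ν ∘ v) := by
  apply linearIndependent_of_ne_zero_of_inner_eq_zero
  · intro b hb
    apply h0 b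
    simp only [Function.comp_apply] at hb
    rw [hb, inner_zero_left]
  · intro b b' hb
    exact h b b' hb

theorem ortho_df (v : B → C(X, ℂ)) (h : LinearIndependent ℂ (T2 ν ∘ v)) :
    ∀ s ∈ Submodule.span ℂ (Set.range v), T2 ν s = 0 → s = 0 := by
  intro s hs h0
  exact Submodule.disjoint_def.1 (Submodule.range_ker_disjoint h) s hs h0

theorem ortho_finrank (v : B → C(X, ℂ)) (h : LinearIndependent ℂ (T2 ν ∘ v)) :
    finrank ℂ (Submodule.span ℂ (Set.range v)) = Fintype.card B :=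
  finrank_span_eq_card (LinearIndependent.of_comp _ h)

end ortho

variable {μ : Measure Z} [IsProbabilityMeasure μ]

/-- the norms of the monomials -/
def wt (α : Fin 5 → ℕ) : ℝ := ((∏ i, ((α i).factorial : ℝ)) * 24) / (((∑ i, α i) + 4).factorial : ℝ)

theorem wt_pos (α : Fin 5 → ℕ) : 0 < wt α := by
  unfold wt
  have : 0 < ∏ i, ((α i).factorial : ℝ) :=
    Finset.prod_pos fun i _ => by exact_mod_cast (α i).factorial_pos
  have h2 : (0 : ℝ) < (((∑ i, α i) + 4).factorial : ℝ) := by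
    exact_mod_cast Nat.factorial_pos _
  positivity

theorem mom_wt (hM : Mom μ) (α β : Fin 5 → ℕ) :
    ∫ z, mono β z * (starRingEnd ℂ) (mono α z) ∂μ = if α = β then (wt α : ℂ) else 0 := by
  rw [hM.mom]
  by_cases h : α = β
  · subst h
    rw [if_pos rfl, if_pos rfl]
    unfold wt
    push_cast
    rfl
  · rw [if_neg h, if_neg (Ne.symm h)]

theorem inner_cmono (hM : Mom μ) (α β : Fin 5 → ℕ) :
    ⟪T2 μ (cmono α), T2 μ (cmono β)⟫_ℂ = if α = β then (wt α : ℂ) else 0 := by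
  rw [inner_T2]
  exact mom_wt hM α β

theorem li1 (hM : Mom μ) (k : ℤ) : LinearIndependent ℂ (T2 μ ∘ fun α : MI k => cmono α.1) := by
  apply ortho_li
  · intro α
    rw [inner_cmono hM, if_pos rfl]
    exact_mod_cast (wt_pos _).ne'
  · intro α β h
    rw [inner_cmono hM, if_neg (fun h' => h (Subtype.ext h'))]

theorem mem_poly1 (k : ℤ) (u : Z → ℂ) :
    u ∈ poly1 k ↔ ∃ s ∈ Submodule.span ℂ (Set.range fun α : MI k => cmono α.1), ⇑s = u := by
  have h : poly1 k = (Submodule.span ℂ (Set.range fun α : MI k => cmono α.1)).map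
      (ContinuousMap.coeFnLinearMap ℂ) := by
    rw [Submodule.map_span, poly1]
    congr 1
    ext u
    constructor
    · rintro ⟨α, hα, rfl⟩
      exact ⟨cmono α, ⟨⟨α, hα⟩, rfl⟩, rfl⟩
    · rintro ⟨_, ⟨α, rfl⟩, rfl⟩
      exact ⟨α.1, α.2, rfl⟩
  rw [h, Submodule.mem_map]
  rfl

/-- the system of polynomials on the sphere -/
def S1 (hM : Mom μ) (hA : Asym μ) : Sys Z μ ℤ where
  Hc k := Submodule.span ℂ (Set.range fun α : MI k => cmono α.1)
  fd k := FiniteDimensional.span_of_finite ℂ (Set.finite_range _)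
  df k := ortho_df _ (li1 hM k)
  F := atTop
  tF c := tendsto_atTop_add_const_right _ _ tendsto_id
  hom m g := ∀ (t : Circle) z, g (rot t z) = (t : ℂ) ^ m * g z
  near m g hg ε hε := by
    obtain ⟨K, hK⟩ := hA.one m g g.continuous hg (ε ^ 2) (by positivity)
    refine eventually_atTop.2 ⟨K, fun k hk s hs => ?_⟩
    obtain ⟨v, hv, h1⟩ := hK k hk s ((mem_poly1 k s).2 ⟨s, hs, rfl⟩)
    obtain ⟨t, ht, rfl⟩ := (mem_poly1 _ v).1 hv
    refine ⟨t, ht, ?_⟩
    apply le_of_sq_le_sq _ (by positivity)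
    rw [mul_pow, norm_T2_sq, norm_T2_sq]
    exact h1

theorem S1_finrank (hM : Mom μ) (hA : Asym μ) (k : ℤ) :
    finrank ℂ ((S1 hM hA).Hc k) = Fintype.card (MI k) := ortho_finrank _ (li1 hM k)

/-- the first projection -/
def pr1 : C(Z × Z, Z) := ⟨Prod.fst, continuous_fst⟩
/-- the second projection -/
def pr2 : C(Z × Z, Z) := ⟨Prod.snd, continuous_snd⟩

/-- pullback under the first projection -/
def p1 : C(Z, ℂ) →ₐ[ℂ] C(Z × Z, ℂ) := ContinuousMap.compRightAlgHom ℂ ℂ pr1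
/-- pullback under the second projection -/
def p2 : C(Z, ℂ) →ₐ[ℂ] C(Z × Z, ℂ) := ContinuousMap.compRightAlgHom ℂ ℂ pr2

theorem p1_apply (g : C(Z, ℂ)) (z : Z × Z) : p1 g z = g z.1 := rfl
theorem p2_apply (g : C(Z, ℂ)) (z : Z × Z) : p2 g z = g z.2 := rfl

theorem inner_prod (s t s' t' : C(Z, ℂ)) :
    ⟪T2 (μ.prod μ) (p1 s * p2 s'), T2 (μ.prod μ) (p1 t * p2 t')⟫_ℂ =
      ⟪T2 μ s, T2 μ t⟫_ℂ * ⟪T2 μ s', T2 μ t'⟫_ℂ := by
  rw [inner_T2, inner_T2, inner_T2, ← integral_prod_mul]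
  congr 1
  ext z
  simp only [ContinuousMap.mul_apply, p1_apply, p2_apply, map_mul]
  ring

/-- monomials on the product -/
def cmono2 (α : (Fin 5 → ℕ) × (Fin 5 → ℕ)) : C(Z × Z, ℂ) := p1 (cmono α.1) * p2 (cmono α.2)

/-- pairs of multi-indices -/
def MI2 (k : ℤ × ℤ) : Type := MI k.1 × MI k.2

instance finMI2 (k : ℤ × ℤ) : Fintype (MI2 k) := inferInstanceAs (Fintype (MI k.1 × MI k.2))

/-- the monomials of bidegree `k` -/
def vm2 (k : ℤ × ℤ) (α : MI2 k) : C(Z × Z, ℂ) := p1 (cmono α.1.1) * p2 (cmono α.2.1)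

theorem li2 (hM : Mom μ) (k : ℤ × ℤ) : LinearIndependent ℂ (T2 (μ.prod μ) ∘ vm2 k) := by
  apply ortho_li
  · intro α
    rw [vm2, inner_prod, inner_cmono hM, inner_cmono hM, if_pos rfl, if_pos rfl]
    exact mul_ne_zero (by exact_mod_cast (wt_pos _).ne') (by exact_mod_cast (wt_pos _).ne')
  · intro α β h
    rw [vm2, vm2, inner_prod, inner_cmono hM, inner_cmono hM]
    by_cases h1 : α.1.1 = β.1.1
    · rw [if_neg (c := α.2.1 = β.2.1), mul_zero]
      intro h2
      exact h (Prod.ext (Subtype.ext h1) (Subtype.ext h2))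
    · rw [if_neg h1, zero_mul]

theorem mem_poly2 (k : ℤ × ℤ) (u : Z × Z → ℂ) :
    u ∈ poly2 k.1 k.2 ↔ ∃ s ∈ Submodule.span ℂ (Set.range (vm2 k)), ⇑s = u := by
  have h : poly2 k.1 k.2 = (Submodule.span ℂ (Set.range (vm2 k))).map
      (ContinuousMap.coeFnLinearMap ℂ) := by
    rw [Submodule.map_span, poly2]
    congr 1
    ext u
    constructor
    · rintro ⟨α, β, hα, hβ, rfl⟩
      exact ⟨vm2 k (⟨α, hα⟩, ⟨β, hβ⟩), ⟨_, rfl⟩, rfl⟩
    · rintro ⟨_, ⟨α, rfl⟩, rfl⟩
      exact ⟨α.1.1, α.2.1, α.1.2, α.2.2, rfl⟩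
  rw [h, Submodule.mem_map]
  rfl

/-- the system of polynomials on the product of spheres -/
def S2 (hM : Mom μ) (hA : Asym μ) : Sys (Z × Z) (μ.prod μ) (ℤ × ℤ) where
  Hc k := Submodule.span ℂ (Set.range (vm2 k))
  fd k := FiniteDimensional.span_of_finite ℂ (Set.finite_range _)
  df k := ortho_df _ (li2 hM k)
  F := atTop
  tF c := tendsto_atTop_add_const_right _ _ tendsto_id
  hom m g := ∀ (s t : Circle) z, g (rot s z.1, rot t z.2) = (s : ℂ) ^ m.1 * (t : ℂ) ^ m.2 * g z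
  near m g hg ε hε := by
    obtain ⟨K, hK⟩ := hA.two m.1 m.2 g g.continuous hg (ε ^ 2) (by positivity)
    refine eventually_atTop.2 ⟨(K, K), fun k hk s hs => ?_⟩
    obtain ⟨v, hv, h1⟩ := hK k.1 k.2 hk.1 hk.2 s ((mem_poly2 k s).2 ⟨s, hs, rfl⟩)
    obtain ⟨t, ht, rfl⟩ := (mem_poly2 (k + m) v).1 hv
    refine ⟨t, ht, ?_⟩
    apply le_of_sq_le_sq _ (by positivity)
    rw [mul_pow, norm_T2_sq, norm_T2_sq]
    exact h1

end

end Pool.Agent.TH306.IX
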