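import Pool.Agent.TH306.IX.Conc

set_option autoImplicit false
set_option linter.unusedSectionVars false
set_option linter.unusedVariables false

/-!
# Project SD, job K3: from bundles to systems
-/

namespace Pool.Agent.TH306.IX

open Module MeasureTheory Filter Pool.Agent.TH179.SD
open scoped InnerProductSpace Matrix

noncomputable section

section cmat

variable {X : Type} [TopologicalSpace X] {ι ι' ι'' : Type}

/-- a matrix of functions -/
def cmat (e : X → Matrix ι ι' ℂ) (he : Continuous e) : Matrix ι ι' C(X, ℂ) :=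
  Matrix.of fun i j => ⟨fun z => e z i j, (continuous_apply_apply i j).comp he⟩

theorem cmat_apply (e : X → Matrix ι ι' ℂ) (he : Continuous e) (i : ι) (j : ι') (z : X) :
    cmat e he i j z = e z i j := rfl

theorem cmat_congr {e e' : X → Matrix ι ι' ℂ} (he : Continuous e) (he' : Continuous e')
    (h : ∀ z, e z = e' z) : cmat e he = cmat e' he' := by
  ext i j z
  rw [cmat_apply, cmat_apply, h]

theorem cmat_mul [Fintype ι'] {u : X → Matrix ι ι' ℂ} {v : X → Matrix ι' ι'' ℂ}
    {w : X → Matrix ι ι'' ℂ} (hu : Continuous u) (hv : Continuous v) (hw : Continuous w)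
    (h : ∀ z, u z * v z = w z) : cmat u hu * cmat v hv = cmat w hw := by
  ext i j z
  rw [Matrix.mul_apply, cmat_apply, ← h, Matrix.mul_apply, ContinuousMap.coe_sum,
    Finset.sum_apply]
  rfl

theorem cmat_one [DecidableEq ι] :
    cmat (fun _ : X => (1 : Matrix ι ι ℂ)) continuous_const = 1 := by
  ext i j z
  rw [cmat_apply]
  by_cases h : i = j
  · subst h
    rw [Matrix.one_apply_eq, Matrix.one_apply_eq]
    rfl
  · rw [Matrix.one_apply_ne h, Matrix.one_apply_ne h]
    rfl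

theorem cmat_herm {e : X → Matrix ι ι ℂ} (he : Continuous e) (h : ∀ z, (e z).conjTranspose = e z) :
    (cmat e he)ᴴ = cmat e he := by
  ext i j z
  have := congrFun (congrFun (h z) i) j
  exact this

end cmat

theorem ev2 {p : ℤ × ℤ → Prop} (h : ∀ᶠ k in atTop, p k) :
    ∃ K : ℤ, ∀ k l, K ≤ k → K ≤ l → p (k, l) := by
  obtain ⟨a, ha⟩ := eventually_atTop.1 h
  exact ⟨max a.1 a.2, fun k l hk hl => ha _ ⟨(le_max_left _ _).trans hk, (le_max_right _ _).trans hl⟩⟩

theorem ev1 {p : ℤ → Prop} (h : ∀ᶠ k in atTop, p k) : ∃ K : ℤ, ∀ k, K ≤ k → p k :=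
  eventually_atTop.1 h

variable {μ : Measure Z} [IsProbabilityMeasure μ] (hM : Mom μ) (hA : Asym μ)

/-- bundles over `CP⁴` -/
def tB (A : Bun) : Bd (S1 hM hA) where
  ι := A.ι
  fin := A.fin
  dec := A.dec
  a := A.a
  e := cmat A.e A.cont
  idem := cmat_mul _ _ _ A.idem
  herm := cmat_herm _ A.herm
  hom i j t z := A.equiv t z i j

/-- bundles over `CP⁴ × CP⁴` -/
def tB2 (A : Bun2) : Bd (S2 hM hA) where
  ι := A.ι
  fin := A.fin
  dec := A.dec
  a i := (A.a i, A.b i)
  e := cmat A.e A.cont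
  idem := cmat_mul _ _ _ A.idem
  herm := cmat_herm _ A.herm
  hom i j s t z := A.equiv s t z i j

/-- the index of a bundle over `CP⁴` -/
def ff (A : Bun) (k : ℤ) : ℤ := ((tB hM hA A).idx k : ℤ)

/-- the index of a bundle over `CP⁴ × CP⁴` -/
def FF (A : Bun2) (k l : ℤ) : ℤ := ((tB2 hM hA A).idx (k, l) : ℤ)

theorem iso_ff (A B : Bun) (h : A.Iso B) : ∃ K : ℤ, ∀ k, K ≤ k → ff hM hA A k = ff hM hA B k := by
  obtain ⟨u, v, hu, hv, h1, h2, h3, h4⟩ := h
  have e1 := Bd.idx_le_of_iso (tB hM hA A) (tB hM hA B) (cmat u hu) (cmat v hv)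
    (cmat_mul hv hu A.cont h1) (cmat_mul hu hv B.cont h2) (fun i j t z => h3 t z i j)
  have e2 := Bd.idx_le_of_iso (tB hM hA B) (tB hM hA A) (cmat v hv) (cmat u hu)
    (cmat_mul hu hv B.cont h2) (cmat_mul hv hu A.cont h1) (fun i j t z => h4 t z i j)
  apply ev1
  have e1' : ∀ᶠ k in (atTop : Filter ℤ), (tB hM hA A).idx k ≤ (tB hM hA B).idx k := e1
  have e2' : ∀ᶠ k in (atTop : Filter ℤ), (tB hM hA B).idx k ≤ (tB hM hA A).idx k := e2
  filter_upwards [e1', e2'] with k h5 h6
  unfold ff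
  rw [le_antisymm h5 h6]

theorem iso_FF (A B : Bun2) (h : A.Iso B) :
    ∃ K : ℤ, ∀ k l, K ≤ k → K ≤ l → FF hM hA A k l = FF hM hA B k l := by
  obtain ⟨u, v, hu, hv, h1, h2, h3, h4⟩ := h
  have e1 := Bd.idx_le_of_iso (tB2 hM hA A) (tB2 hM hA B) (cmat u hu) (cmat v hv)
    (cmat_mul hv hu A.cont h1) (cmat_mul hu hv B.cont h2) (fun i j s t z => h3 s t z i j)
  have e2 := Bd.idx_le_of_iso (tB2 hM hA B) (tB2 hM hA A) (cmat v hv) (cmat u hu)
    (cmat_mul hu hv B.cont h2) (cmat_mul hv hu A.cont h1) (fun i j s t z => h4 s t z i j)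
  have e1' : ∀ᶠ k in (atTop : Filter (ℤ × ℤ)), (tB2 hM hA A).idx k ≤ (tB2 hM hA B).idx k := e1
  have e2' : ∀ᶠ k in (atTop : Filter (ℤ × ℤ)), (tB2 hM hA B).idx k ≤ (tB2 hM hA A).idx k := e2
  obtain ⟨K, hK⟩ := ev2 (e1'.and e2')
  refine ⟨K, fun k l hk hl => ?_⟩
  unfold FF
  rw [le_antisymm (hK k l hk hl).1 (hK k l hk hl).2]

theorem sum_FF (E A B : Bun2) (h : E.IsSum A B) : ∃ K : ℤ, ∀ k l, K ≤ k → K ≤ l →
    FF hM hA E k l = FF hM hA A k l + FF hM hA B k l := by
  obtain ⟨f, h1, h2, h3⟩ := h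
  have e1 : (tB2 hM hA E).IsSum (tB2 hM hA A) (tB2 hM hA B) := by
    refine ⟨f, ?_, ?_⟩
    · intro i
      show (E.a i, E.b i) = _
      rw [h1, h2]
      rcases f i with j | j <;> rfl
    · ext i j z
      show E.e z i j = _
      rw [h3]
      rw [Matrix.submatrix_apply, Matrix.submatrix_apply]
      rcases f i with i' | i' <;> rcases f j with j' | j' <;> rfl
  have e2 := Bd.idx_sum _ _ _ e1
  have e3 : ∀ᶠ k in (atTop : Filter (ℤ × ℤ)), (tB2 hM hA E).idx k =
    (tB2 hM hA A).idx k + (tB2 hM hA B).idx k := e2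
  obtain ⟨K, hK⟩ := ev2 e3
  refine ⟨K, fun k l hk hl => ?_⟩
  unfold FF
  rw [hK k l hk hl]
  push_cast
  rfl

theorem sum_ff (A B : Bun) : ∃ K : ℤ, ∀ k, K ≤ k →
    ff hM hA (A.sum B) k = ff hM hA A k + ff hM hA B k := by
  have e1 : (tB hM hA (A.sum B)).IsSum (tB hM hA A) (tB hM hA B) := by
    refine ⟨Equiv.refl _, ?_, ?_⟩
    · intro i
      rfl
    · ext i j z
      show (Matrix.fromBlocks (A.e z) 0 0 (B.e z)) i j = _
      rcases i with i' | i' <;> rcases j with j' | j' <;> rfl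
  have e2 := Bd.idx_sum _ _ _ e1
  have e3 : ∀ᶠ k in (atTop : Filter ℤ), (tB hM hA (A.sum B)).idx k =
    (tB hM hA A).idx k + (tB hM hA B).idx k := e2
  obtain ⟨K, hK⟩ := ev1 e3
  refine ⟨K, fun k hk => ?_⟩
  unfold ff
  rw [hK k hk]
  push_cast
  rfl

theorem shift_FF (E A : Bun2) (m n : ℤ) (h : E.IsShift A m n) : ∃ K : ℤ, ∀ k l, K ≤ k → K ≤ l →
    FF hM hA E k l = FF hM hA A (k + m) (l + n) := by
  obtain ⟨f, h1, h2, h3⟩ := h
  have e1 : (tB2 hM hA E).IsShift (tB2 hM hA A) (m, n) := by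
    refine ⟨f, ?_, ?_⟩
    · intro i
      show (E.a i, E.b i) = _
      rw [h1, h2]
      rfl
    · ext i j z
      show E.e z i j = _
      rw [h3]
      rfl
  have e2 := Bd.idx_shift _ _ _ e1
  have e3 : ∀ᶠ k in (atTop : Filter (ℤ × ℤ)), (tB2 hM hA E).idx k =
    (tB2 hM hA A).idx (k + (m, n)) := e2
  obtain ⟨K, hK⟩ := ev2 e3
  refine ⟨K, fun k l hk hl => ?_⟩
  unfold FF
  rw [hK k l hk hl]
  rfl

theorem shift_ff (A : Bun) (m : ℤ) : ∃ K : ℤ, ∀ k, K ≤ k →
    ff hM hA (A.shift m) k = ff hM hA A (k + m) := by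
  have e1 : (tB hM hA (A.shift m)).IsShift (tB hM hA A) m := by
    refine ⟨Equiv.refl _, ?_, ?_⟩
    · intro i; rfl
    · ext i j z; rfl
  have e2 := Bd.idx_shift _ _ _ e1
  have e3 : ∀ᶠ k in (atTop : Filter ℤ), (tB hM hA (A.shift m)).idx k =
    (tB hM hA A).idx (k + m) := e2
  obtain ⟨K, hK⟩ := ev1 e3
  refine ⟨K, fun k hk => ?_⟩
  unfold ff
  rw [hK k hk]

theorem triv_ff (ι : Type) [Fintype ι] [DecidableEq ι] (a : ι → ℤ) :
    ∃ K : ℤ, ∀ k : ℤ, K ≤ k → (ff hM hA (Bun.triv ι a) k : ℚ) = ∑ i, Bq (k + a i) := by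
  refine ⟨∑ i, |a i|, fun k hk => ?_⟩
  have h1 : (tB hM hA (Bun.triv ι a)).idx k = ∑ i, Fintype.card (MI (k + a i)) := by
    rw [Bd.idx_one]
    · refine Finset.sum_congr rfl fun i _ => ?_
      exact S1_finrank hM hA _
    · exact cmat_one
  unfold ff
  rw [h1]
  push_cast
  refine Finset.sum_congr rfl fun i _ => ?_
  have h2 : |a i| ≤ ∑ i, |a i| :=
    Finset.single_le_sum (f := fun i => |a i|) (fun i _ => abs_nonneg _) (Finset.mem_univ i)
  rw [card_MI _ (by linarith [neg_abs_le (a i)])]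
  push_cast
  rfl

/-- the spaces of bihomogeneous polynomials, first form -/
theorem mem_vm2_left (k l : ℤ) (g : C(Z × Z, ℂ)) :
    g ∈ Submodule.span ℂ (Set.range (vm2 (k, l))) ↔ ∃ s : MI l → C(Z, ℂ),
      (∀ β, s β ∈ Submodule.span ℂ (Set.range fun α : MI k => cmono α.1)) ∧
      g = ∑ β, p1 (s β) * p2 (cmono β.1) := by
  constructor
  · intro hg
    induction hg using Submodule.span_induction with
    | mem x hx =>
      obtain ⟨⟨α, β⟩, rfl⟩ := hx
      refine ⟨Pi.single β (cmono α.1), ?_, ?_⟩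
      · intro β'
        by_cases h : β' = β
        · subst h
          rw [Pi.single_eq_same]
          exact Submodule.subset_span ⟨α, rfl⟩
        · rw [Pi.single_eq_of_ne h]
          exact Submodule.zero_mem _
      · rw [Finset.sum_eq_single β]
        · rw [Pi.single_eq_same]; rfl
        · intro β' _ h
          rw [Pi.single_eq_of_ne h, map_zero, zero_mul]
        · intro h; exact absurd (Finset.mem_univ _) h
    | zero => exact ⟨0, fun β => Submodule.zero_mem _, by simp⟩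
    | add x y _ _ hx hy =>
      obtain ⟨s, hs, rfl⟩ := hx
      obtain ⟨t, ht, rfl⟩ := hy
      refine ⟨s + t, fun β => Submodule.add_mem _ (hs β) (ht β), ?_⟩
      rw [← Finset.sum_add_distrib]
      refine Finset.sum_congr rfl fun β _ => ?_
      rw [Pi.add_apply, map_add, add_mul]
    | smul c x _ hx =>
      obtain ⟨s, hs, rfl⟩ := hx
      refine ⟨c • s, fun β => Submodule.smul_mem _ c (hs β), ?_⟩
      rw [Finset.smul_sum]
      refine Finset.sum_congr rfl fun β _ => ?_
      rw [Pi.smul_apply, map_smul, smul_mul_assoc]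
  · rintro ⟨s, hs, rfl⟩
    apply Submodule.sum_mem
    intro β _
    have h1 := hs β
    generalize s β = t at h1
    induction h1 using Submodule.span_induction with
    | mem x hx =>
      obtain ⟨α, rfl⟩ := hx
      exact Submodule.subset_span ⟨(α, β), rfl⟩
    | zero => rw [map_zero, zero_mul]; exact Submodule.zero_mem _
    | add x y _ _ hx hy => rw [map_add, add_mul]; exact Submodule.add_mem _ hx hy
    | smul c x _ hx => rw [map_smul, smul_mul_assoc]; exact Submodule.smul_mem _ c hx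

/-- the spaces of bihomogeneous polynomials, second form -/
theorem mem_vm2_right (k l : ℤ) (g : C(Z × Z, ℂ)) :
    g ∈ Submodule.span ℂ (Set.range (vm2 (k, l))) ↔ ∃ s : MI k → C(Z, ℂ),
      (∀ β, s β ∈ Submodule.span ℂ (Set.range fun α : MI l => cmono α.1)) ∧
      g = ∑ β, p2 (s β) * p1 (cmono β.1) := by
  constructor
  · intro hg
    induction hg using Submodule.span_induction with
    | mem x hx =>
      obtain ⟨⟨α, β⟩, rfl⟩ := hx
      refine ⟨Pi.single α (cmono β.1), ?_, ?_⟩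
      · intro α'
        by_cases h : α' = α
        · subst h
          rw [Pi.single_eq_same]
          exact Submodule.subset_span ⟨β, rfl⟩
        · rw [Pi.single_eq_of_ne h]
          exact Submodule.zero_mem _
      · rw [Finset.sum_eq_single α]
        · rw [Pi.single_eq_same, mul_comm]; rfl
        · intro β' _ h
          rw [Pi.single_eq_of_ne h, map_zero, zero_mul]
        · intro h; exact absurd (Finset.mem_univ _) h
    | zero => exact ⟨0, fun β => Submodule.zero_mem _, by simp⟩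
    | add x y _ _ hx hy =>
      obtain ⟨s, hs, rfl⟩ := hx
      obtain ⟨t, ht, rfl⟩ := hy
      refine ⟨s + t, fun β => Submodule.add_mem _ (hs β) (ht β), ?_⟩
      rw [← Finset.sum_add_distrib]
      refine Finset.sum_congr rfl fun β _ => ?_
      rw [Pi.add_apply, map_add, add_mul]
    | smul c x _ hx =>
      obtain ⟨s, hs, rfl⟩ := hx
      refine ⟨c • s, fun β => Submodule.smul_mem _ c (hs β), ?_⟩
      rw [Finset.smul_sum]
      refine Finset.sum_congr rfl fun β _ => ?_
      rw [Pi.smul_apply, map_smul, smul_mul_assoc]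
  · rintro ⟨s, hs, rfl⟩
    apply Submodule.sum_mem
    intro β _
    have h1 := hs β
    generalize s β = t at h1
    induction h1 using Submodule.span_induction with
    | mem x hx =>
      obtain ⟨α, rfl⟩ := hx
      rw [mul_comm]
      exact Submodule.subset_span ⟨(β, α), rfl⟩
    | zero => rw [map_zero, zero_mul]; exact Submodule.zero_mem _
    | add x y _ _ hx hy => rw [map_add, add_mul]; exact Submodule.add_mem _ hx hy
    | smul c x _ hx => rw [map_smul, smul_mul_assoc]; exact Submodule.smul_mem _ c hx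

theorem x_FF (E : Bun2) (A : Bun) (h : E.IsX A) : ∃ K : ℤ, ∀ k l : ℤ, K ≤ k → K ≤ l →
    (FF hM hA E k l : ℚ) = ff hM hA A k * Bq l := by
  obtain ⟨f, h1, h2, h3⟩ := h
  have e1 := (tB hM hA A).idx_spec (δ := 1/4) (by norm_num)
  obtain ⟨K, hK⟩ := ev1 e1
  refine ⟨max K 0, fun k l hk hl => ?_⟩
  obtain ⟨P, Q, hP, hP2⟩ := hK k ((le_max_left _ _).trans hk)
  have h4 := Bd.idx_tensor (tB2 hM hA E) (tB hM hA A) (k, l) k f p1
    (fun β : MI l => p2 (cmono β.1)) (fun β => wt β.1) (fun β => wt_pos _) ?_ ?_ ?_ hP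
  · unfold FF ff
    rw [h4, hP2]
    push_cast
    rw [card_MI l ((le_max_right _ _).trans hl), mul_comm]
  · intro s t β β'
    rw [inner_prod, inner_cmono hM]
    by_cases h : β = β'
    · rw [if_pos h, if_pos (congrArg Subtype.val h), mul_comm]
    · rw [if_neg h, if_neg (fun h' => h (Subtype.ext h')), mul_zero]
  · ext i j z
    show E.e z i j = _
    rw [h3]
    rfl
  · intro i g
    have h5 : (k, l) + (tB2 hM hA E).a i = (k + A.a (f i), l) := by
      show (k, l) + (E.a i, E.b i) = _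
      rw [h1, h2]
      simp
    rw [h5]
    exact mem_vm2_left _ _ _

theorem y_FF (E : Bun2) (A : Bun) (h : E.IsY A) : ∃ K : ℤ, ∀ k l : ℤ, K ≤ k → K ≤ l →
    (FF hM hA E k l : ℚ) = Bq k * ff hM hA A l := by
  obtain ⟨f, h1, h2, h3⟩ := h
  have e1 := (tB hM hA A).idx_spec (δ := 1/4) (by norm_num)
  obtain ⟨K, hK⟩ := ev1 e1
  refine ⟨max K 0, fun k l hk hl => ?_⟩
  obtain ⟨P, Q, hP, hP2⟩ := hK l ((le_max_left _ _).trans hl)
  have h4 := Bd.idx_tensor (tB2 hM hA E) (tB hM hA A) (k, l) l f p2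
    (fun β : MI k => p1 (cmono β.1)) (fun β => wt β.1) (fun β => wt_pos _) ?_ ?_ ?_ hP
  · unfold FF ff
    rw [h4, hP2]
    push_cast
    rw [card_MI k ((le_max_right _ _).trans hk)]
  · intro s t β β'
    rw [mul_comm (p2 s), mul_comm (p2 t), inner_prod, inner_cmono hM]
    by_cases h : β = β'
    · rw [if_pos h, if_pos (congrArg Subtype.val h)]
    · rw [if_neg h, if_neg (fun h' => h (Subtype.ext h')), zero_mul]
  · ext i j z
    show E.e z i j = _
    rw [h3]
    rfl
  · intro i g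
    have h5 : (k, l) + (tB2 hM hA E).a i = (k, l + A.a (f i)) := by
      show (k, l) + (E.a i, E.b i) = _
      rw [h1, h2]
      simp
    rw [h5]
    exact mem_vm2_right _ _ _

end

end Pool.Agent.TH306.IX
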