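import Mathlib

set_option autoImplicit false

/-!
# Project SD, job K3: abstract Hilbert space part
-/

namespace Pool.Agent.TH306.IX

open Module Submodule
open scoped InnerProductSpace

noncomputable section

variable {H W : Type*} [NormedAddCommGroup H] [InnerProductSpace ℂ H] [AddCommGroup W] [Module ℂ W]

/-- linear best approximation -/
theorem exists_lin (j : W →ₗ[ℂ] H) (V : Submodule ℂ W) [FiniteDimensional ℂ V]
    (hj : ∀ f ∈ V, j f = 0 → f = 0) :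
    ∃ ψ : H →ₗ[ℂ] W, (∀ h, ψ h ∈ V) ∧ (∀ h, ∀ g ∈ V, ⟪j (ψ h), j g⟫_ℂ = ⟪h, j g⟫_ℂ) ∧
      (∀ f ∈ V, ψ (j f) = f) := by
  classical
  set jV : V →ₗ[ℂ] H := j.comp V.subtype with hjV
  have hinj : Function.Injective jV := by
    rw [injective_iff_map_eq_zero]
    intro f hf
    exact Subtype.ext (hj f.1 f.2 hf)
  let eq := LinearEquiv.ofInjective jV hinj
  let Q := LinearMap.range jV
  have : FiniteDimensional ℂ Q := inferInstance
  have heq : ∀ f : V, ((eq f : Q) : H) = j f.1 := fun f => rfl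
  have heq' : ∀ x : Q, j (eq.symm x).1 = (x : H) := by
    intro x
    rw [← heq, LinearEquiv.apply_symm_apply]
  refine ⟨V.subtype.comp (eq.symm.toLinearMap.comp
    (Q.orthogonalProjectionOnto : H →ₗ[ℂ] Q)), ?_, ?_, ?_⟩
  · intro h
    exact (eq.symm (Q.orthogonalProjectionOnto h)).2
  · intro h g hg
    have h1 : j ((V.subtype.comp (eq.symm.toLinearMap.comp
        (Q.orthogonalProjectionOnto : H →ₗ[ℂ] Q))) h) =
        ((Q.orthogonalProjectionOnto h : Q) : H) := heq' _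
    rw [h1]
    have hgQ : j g ∈ Q := ⟨⟨g, hg⟩, rfl⟩
    rw [← Q.inner_orthogonalProjectionOnto_eq_of_mem_right ⟨j g, hgQ⟩ h]
    rfl
  · intro f hf
    have hfQ : j f ∈ Q := ⟨⟨f, hf⟩, rfl⟩
    have h1 : Q.orthogonalProjectionOnto (j f) = ⟨j f, hfQ⟩ := by
      apply Subtype.ext
      exact Q.starProjection_eq_self_iff.2 hfQ
    show (eq.symm (Q.orthogonalProjectionOnto (j f))).1 = f
    rw [h1]
    have h2 : (⟨j f, hfQ⟩ : Q) = eq ⟨f, hf⟩ := Subtype.ext rfl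
    rw [h2, LinearEquiv.symm_apply_apply]

section psi

variable {j : W →ₗ[ℂ] H} {V : Submodule ℂ W} {ψ : H →ₗ[ℂ] W}
  (h1 : ∀ h, ψ h ∈ V) (h2 : ∀ h, ∀ g ∈ V, ⟪j (ψ h), j g⟫_ℂ = ⟪h, j g⟫_ℂ)

include h1 h2

theorem psi_pyth (h : H) : ‖h‖ ^ 2 = ‖j (ψ h)‖ ^ 2 + ‖h - j (ψ h)‖ ^ 2 := by
  have h3 : ⟪j (ψ h), h - j (ψ h)⟫_ℂ = 0 := by
    rw [inner_sub_right, h2 h (ψ h) (h1 h), sub_eq_zero, ← inner_conj_symm, ← h2 h (ψ h) (h1 h)]
    rw [inner_self_eq_norm_sq_to_K]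
    simp
  have h4 := norm_add_sq_eq_norm_sq_add_norm_sq_of_inner_eq_zero (𝕜 := ℂ) (j (ψ h)) (h - j (ψ h)) h3
  rw [add_sub_cancel] at h4
  rw [pow_two, pow_two, pow_two, h4]

theorem psi_le (h : H) : ‖j (ψ h)‖ ≤ ‖h‖ := by
  have := psi_pyth h1 h2 h
  have h3 : ‖j (ψ h)‖ ^ 2 ≤ ‖h‖ ^ 2 := by nlinarith [sq_nonneg ‖h - j (ψ h)‖]
  exact le_of_sq_le_sq h3 (norm_nonneg _)

theorem psi_best (h : H) {g : W} (hg : g ∈ V) : ‖h - j (ψ h)‖ ≤ ‖h - j g‖ := by
  have h3 : ⟪h - j (ψ h), j (ψ h - g)⟫_ℂ = 0 := by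
    rw [inner_sub_left, h2 h _ (V.sub_mem (h1 h) hg), sub_self]
  have h4 := norm_add_sq_eq_norm_sq_add_norm_sq_of_inner_eq_zero (𝕜 := ℂ) (h - j (ψ h)) (j (ψ h - g)) h3
  have h5 : h - j (ψ h) + j (ψ h - g) = h - j g := by rw [map_sub]; abel
  rw [h5] at h4
  have h6 : ‖h - j (ψ h)‖ ^ 2 ≤ ‖h - j g‖ ^ 2 := by nlinarith [mul_self_nonneg ‖j (ψ h - g)‖]
  exact le_of_sq_le_sq h6 (norm_nonneg _)

end psi

/-- the decomposition -/
def DecS (j : W →ₗ[ℂ] H) (E : W →ₗ[ℂ] W) (V S T : Submodule ℂ W) (δ : ℝ) : Prop :=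
  S ≤ V ∧ T ≤ V ∧ S ⊓ T = ⊥ ∧ S ⊔ T = V ∧ (∀ f ∈ S, ‖j (E f) - j f‖ ≤ δ * ‖j f‖) ∧
    ∀ f ∈ T, ‖j (E f)‖ ≤ δ * ‖j f‖

theorem DecS.mono {j : W →ₗ[ℂ] H} {E : W →ₗ[ℂ] W} {V S T : Submodule ℂ W} {δ δ' : ℝ}
    (h : DecS j E V S T δ) (hd : δ ≤ δ') : DecS j E V S T δ' := by
  obtain ⟨a, b, c, d, e, f⟩ := h
  exact ⟨a, b, c, d, fun x hx => (e x hx).trans (by gcongr), fun x hx => (f x hx).trans (by gcongr)⟩

theorem core_dec (j : W →ₗ[ℂ] H) (V : Submodule ℂ W) [FiniteDimensional ℂ V]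
    (hj : ∀ f ∈ V, j f = 0 → f = 0) (E : W →ₗ[ℂ] W)
    (hsym : ∀ f ∈ V, ∀ g ∈ V, ⟪j (E f), j g⟫_ℂ = ⟪j f, j (E g)⟫_ℂ)
    (hidem : ∀ f ∈ V, ⟪j (E f), j (E f)⟫_ℂ = ⟪j (E f), j f⟫_ℂ) (δ : ℝ) (hδ0 : 0 ≤ δ) (hδ1 : δ ≤ 1)
    (hnear : ∀ f ∈ V, ∃ g ∈ V, ‖j (E f) - j g‖ ≤ δ * ‖j f‖) :
    ∃ S T : Submodule ℂ W, DecS j E V S T (3 * δ) := by
  classical
  obtain ⟨ψ, p1, p2, p3⟩ := exists_lin j V hj
  set jV : V →ₗ[ℂ] H := j.comp V.subtype with hjV
  have hinj : Function.Injective jV := by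
    rw [injective_iff_map_eq_zero]
    intro f hf
    exact Subtype.ext (hj f.1 f.2 hf)
  let eq := LinearEquiv.ofInjective jV hinj
  let Q := LinearMap.range jV
  have : FiniteDimensional ℂ Q := inferInstance
  have heq : ∀ f : V, ((eq f : Q) : H) = j f.1 := fun f => rfl
  have heq' : ∀ x : Q, j (eq.symm x).1 = (x : H) := by
    intro x
    rw [← heq, LinearEquiv.apply_symm_apply]
  let ψV : H →ₗ[ℂ] V := ψ.codRestrict V p1
  have hψV : ∀ h, ((ψV h : V) : W) = ψ h := fun h => rfl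
  let T : Q →ₗ[ℂ] Q := eq.toLinearMap.comp (ψV.comp (j.comp (E.comp (V.subtype.comp eq.symm.toLinearMap))))
  have hT1 : ∀ x : Q, ((T x : Q) : H) = j (ψ (j (E (eq.symm x).1))) := fun x => rfl
  have hT : T.IsSymmetric := by
    intro x y
    rw [Submodule.coe_inner, Submodule.coe_inner, hT1, hT1, ← heq' x, ← heq' y]
    rw [p2 _ _ (eq.symm y).2, ← inner_conj_symm, ← inner_conj_symm (j (eq.symm x).1),
      p2 _ _ (eq.symm x).2, inner_conj_symm, inner_conj_symm]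
    exact hsym _ (eq.symm x).2 _ (eq.symm y).2
  have hdist : ∀ x : Q, ‖j (E (eq.symm x).1) - (T x : H)‖ ≤ δ * ‖x‖ := by
    intro x
    obtain ⟨g, hg, hgn⟩ := hnear _ (eq.symm x).2
    rw [hT1]
    refine (psi_best p1 p2 _ hg).trans (hgn.trans ?_)
    rw [heq']; rfl
  set b := hT.eigenvectorBasis rfl with hb
  set lam : Fin (finrank ℂ Q) → ℝ := hT.eigenvalues rfl with hlam
  have hTb : ∀ (x : Q) i, b.repr (T x) i = lam i * b.repr x i := fun x i =>
    hT.eigenvectorBasis_apply_self_apply rfl x i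
  have hlam2 : ∀ i, 0 ≤ lam i * (1 - lam i) ∧ lam i * (1 - lam i) ≤ δ ^ 2 := by
    intro i
    have hTi : T (b i) = (lam i : ℂ) • b i := hT.apply_eigenvectorBasis rfl i
    set f := (eq.symm (b i)).1 with hf
    have hfV : f ∈ V := (eq.symm (b i)).2
    have hjf : j f = (b i : H) := heq' _
    have hnb : ‖(b i : H)‖ = 1 := b.orthonormal.1 i
    have hjj : j (ψ (j (E f))) = (lam i : ℂ) • (b i : H) := by
      rw [← hT1, hTi]; rfl
    have a1 := psi_pyth p1 p2 (j (E f))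
    rw [hjj, norm_smul, hnb, mul_one] at a1
    have a2 : ‖j (E f) - (lam i : ℂ) • (b i : H)‖ ≤ δ := by
      have := hdist (b i)
      rw [hT1] at this
      rw [← hjj]
      refine this.trans ?_
      have : ‖(b i : Q)‖ = 1 := b.orthonormal.1 i
      rw [this, mul_one]
    have a3 : ‖j (E f)‖ ^ 2 = lam i := by
      have h5 : ⟪j (E f), j f⟫_ℂ = (lam i : ℂ) := by
        rw [← p2 _ _ hfV, hjj, hjf, inner_smul_left, inner_self_eq_norm_sq_to_K, hnb]
        simp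
      have h6 := hidem f hfV
      rw [h5, inner_self_eq_norm_sq_to_K] at h6
      change ((‖j (E f)‖ : ℝ) : ℂ) ^ 2 = (lam i : ℂ) at h6
      exact_mod_cast h6
    have a4 : ‖(lam i : ℂ)‖ = |lam i| := by simp
    rw [a3, a4, sq_abs] at a1
    have a5 := sq_nonneg ‖j (E f) - (lam i : ℂ) • (b i : H)‖
    have a6 : ‖j (E f) - (lam i : ℂ) • (b i : H)‖ ^ 2 ≤ δ ^ 2 := by gcongr
    constructor <;> nlinarith
  -- the two subspaces of `Q`
  let S' : Submodule ℂ Q := ⨅ i ∈ {i | lam i ≤ 1 / 2}, LinearMap.ker ((EuclideanSpace.proj i : _ →L[ℂ] ℂ).toLinearMap.comp b.repr.toLinearEquiv.toLinearMap)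
  let T' : Submodule ℂ Q := ⨅ i ∈ {i | 1 / 2 < lam i}, LinearMap.ker ((EuclideanSpace.proj i : _ →L[ℂ] ℂ).toLinearMap.comp b.repr.toLinearEquiv.toLinearMap)
  have mS' : ∀ x, x ∈ S' ↔ ∀ i, lam i ≤ 1 / 2 → b.repr x i = 0 := by
    intro x
    simp only [S', Submodule.mem_iInf, LinearMap.mem_ker]
    rfl
  have mT' : ∀ x, x ∈ T' ↔ ∀ i, 1 / 2 < lam i → b.repr x i = 0 := by
    intro x
    simp only [T', Submodule.mem_iInf, LinearMap.mem_ker]
    rfl
  have hinf : ∀ x, x ∈ S' → x ∈ T' → x = 0 := by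
    intro x h1 h2
    rw [mS'] at h1
    rw [mT'] at h2
    apply b.repr.injective
    ext i
    rw [map_zero]
    rcases le_or_gt (lam i) (1/2) with h | h
    · exact h1 i h
    · exact h2 i h
  have hsup : ∀ x, ∃ y ∈ S', ∃ z ∈ T', y + z = x := by
    intro x
    refine ⟨b.repr.symm (WithLp.toLp 2 (fun i => if lam i ≤ 1/2 then 0 else b.repr x i)), ?_,
      b.repr.symm (WithLp.toLp 2 (fun i => if lam i ≤ 1/2 then b.repr x i else 0)), ?_, ?_⟩
    · rw [mS']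
      intro i hi
      rw [LinearIsometryEquiv.apply_symm_apply]
      simp only [if_pos hi]
    · rw [mT']
      intro i hi
      rw [LinearIsometryEquiv.apply_symm_apply]
      simp only [if_neg (not_le.2 hi)]
    · rw [← map_add]
      apply b.repr.injective
      rw [LinearIsometryEquiv.apply_symm_apply]
      ext i
      simp only [PiLp.add_apply]
      split_ifs <;> simp
  have hnQ : ∀ x : Q, ‖x‖ ^ 2 = ∑ i, ‖b.repr x i‖ ^ 2 := by
    intro x
    rw [← b.repr.norm_map, EuclideanSpace.norm_sq_eq]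
  have estS : ∀ x ∈ S', ‖T x - x‖ ≤ (2 * δ) * ‖x‖ := by
    intro x hx
    rw [mS'] at hx
    have : ‖T x - x‖ ^ 2 ≤ ((2 * δ) * ‖x‖) ^ 2 := by
      rw [mul_pow, hnQ, hnQ, Finset.mul_sum]
      apply Finset.sum_le_sum
      intro i _
      rw [map_sub, PiLp.sub_apply, hTb]
      rcases le_or_gt (lam i) (1/2) with h | h
      · rw [hx i h]; simp
      · have e1 : (lam i : ℂ) * b.repr x i - b.repr x i = ((lam i - 1 : ℝ) : ℂ) * b.repr x i := by
          push_cast; ring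
        rw [e1, norm_mul, mul_pow]
        apply mul_le_mul_of_nonneg_right _ (sq_nonneg _)
        rw [Complex.norm_real, Real.norm_eq_abs, sq_abs]
        obtain ⟨l1, l2⟩ := hlam2 i
        have l3 : 0 ≤ 1 - lam i := by
          by_contra hc
          push Not at hc
          nlinarith
        have l4 : 1 - lam i ≤ 2 * δ ^ 2 := by nlinarith
        have l5 : 1 - lam i ≤ 2 * δ := by nlinarith
        nlinarith
    exact le_of_sq_le_sq this (by positivity)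
  have estT : ∀ x ∈ T', ‖T x‖ ≤ (2 * δ) * ‖x‖ := by
    intro x hx
    rw [mT'] at hx
    have : ‖T x‖ ^ 2 ≤ ((2 * δ) * ‖x‖) ^ 2 := by
      rw [mul_pow, hnQ, hnQ, Finset.mul_sum]
      apply Finset.sum_le_sum
      intro i _
      rw [hTb]
      rcases le_or_gt (lam i) (1/2) with h | h
      · rw [norm_mul, mul_pow]
        apply mul_le_mul_of_nonneg_right _ (sq_nonneg _)
        rw [Complex.norm_real, Real.norm_eq_abs, sq_abs]
        obtain ⟨l1, l2⟩ := hlam2 i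
        have l3 : 0 ≤ lam i := by
          by_contra hc
          push Not at hc
          nlinarith
        have l4 : lam i ≤ 2 * δ ^ 2 := by nlinarith
        have l5 : lam i ≤ 2 * δ := by nlinarith
        nlinarith
      · rw [hx i h]; simp
    exact le_of_sq_le_sq this (by positivity)
  refine ⟨(S'.map eq.symm.toLinearMap).map V.subtype, (T'.map eq.symm.toLinearMap).map V.subtype,
    ?_, ?_, ?_, ?_, ?_, ?_⟩
  · rintro _ ⟨f, _, rfl⟩; exact f.2
  · rintro _ ⟨f, _, rfl⟩; exact f.2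
  · rw [eq_bot_iff]
    rintro f ⟨⟨f1, ⟨x1, hx1, rfl⟩, h1⟩, ⟨f2, ⟨x2, hx2, rfl⟩, h2⟩⟩
    have : x1 = x2 := by
      apply eq.symm.injective
      apply Subtype.ext
      exact h1.trans h2.symm
    subst this
    have h0 := hinf x1 hx1 hx2
    rw [Submodule.mem_bot, ← h1, h0]
    simp
  · apply le_antisymm
    · apply sup_le
      · rintro _ ⟨f, _, rfl⟩; exact f.2
      · rintro _ ⟨f, _, rfl⟩; exact f.2
    · intro f hf
      obtain ⟨y, hy, z, hz, hyz⟩ := hsup (eq ⟨f, hf⟩)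
      rw [Submodule.mem_sup]
      refine ⟨_, ⟨_, ⟨y, hy, rfl⟩, rfl⟩, _, ⟨_, ⟨z, hz, rfl⟩, rfl⟩, ?_⟩
      have : eq.symm y + eq.symm z = ⟨f, hf⟩ := by
        rw [← map_add, hyz, LinearEquiv.symm_apply_apply]
      have h3 := congrArg Subtype.val this
      exact h3
  · rintro _ ⟨_, ⟨x, hx, rfl⟩, rfl⟩
    have e1 := hdist x
    have e2 := estS x hx
    have e3 : ‖j (E (eq.symm x).1) - (x : H)‖ ≤ 3 * δ * ‖x‖ := by
      have e4 : j (E (eq.symm x).1) - (x : H) = (j (E (eq.symm x).1) - (T x : H)) + ((T x - x : Q) : H) := by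
        rw [Submodule.coe_sub]; abel
      rw [e4]
      refine (norm_add_le _ _).trans ?_
      have e5 : ‖((T x - x : Q) : H)‖ = ‖T x - x‖ := rfl
      rw [e5]
      linarith
    have e6 : j (V.subtype (eq.symm.toLinearMap x)) = (x : H) := heq' x
    rw [e6]
    exact e3
  · rintro _ ⟨_, ⟨x, hx, rfl⟩, rfl⟩
    have e1 := hdist x
    have e2 := estT x hx
    have e6 : j (V.subtype (eq.symm.toLinearMap x)) = (x : H) := heq' x
    rw [e6]
    have e4 : j (E (V.subtype (eq.symm.toLinearMap x))) =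
        (j (E (eq.symm x).1) - (T x : H)) + ((T x : Q) : H) := by
      rw [sub_add_cancel]; rfl
    rw [e4]
    refine (norm_add_le _ _).trans ?_
    have e5 : ‖((T x : Q) : H)‖ = ‖T x‖ := rfl
    have e7 : ‖(x : H)‖ = ‖x‖ := rfl
    rw [e5, e7]
    linarith

end

end Pool.Agent.TH306.IX
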