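import Pool.Agent.TH306.IX.Cmp

set_option autoImplicit false
set_option linter.unusedSectionVars false
set_option linter.unusedDecidableInType false

/-!
# Project SD, job K3: the `L²` norm of vectors and matrices of continuous functions
-/

namespace Pool.Agent.TH306.IX

open Module MeasureTheory
open scoped InnerProductSpace Matrix

noncomputable section

variable {X : Type} [TopologicalSpace X] [CompactSpace X] [MeasurableSpace X] [BorelSpace X]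
  (ν : Measure X) [IsFiniteMeasure ν]

/-- the embedding of continuous functions in `L²` -/
def T2 : C(X, ℂ) →ₗ[ℂ] Lp ℂ 2 ν := (ContinuousMap.toLp (E := ℂ) 2 ν ℂ : C(X, ℂ) →L[ℂ] Lp ℂ 2 ν)

theorem inner_T2 (f g : C(X, ℂ)) : ⟪T2 ν f, T2 ν g⟫_ℂ = ∫ x, g x * (starRingEnd ℂ) (f x) ∂ν :=
  ContinuousMap.inner_toLp ν f g

theorem norm_T2_sq (f : C(X, ℂ)) : ‖T2 ν f‖ ^ 2 = ∫ x, ‖f x‖ ^ 2 ∂ν := by
  have h1 := inner_self_eq_norm_sq_to_K (𝕜 := ℂ) (T2 ν f)
  rw [inner_T2] at h1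
  have h2 : ∫ x, f x * (starRingEnd ℂ) (f x) ∂ν = ((∫ x, ‖f x‖ ^ 2 ∂ν : ℝ) : ℂ) := by
    rw [← integral_complex_ofReal]
    congr 1
    ext x
    rw [Complex.mul_conj, Complex.normSq_eq_norm_sq]
  rw [h2] at h1
  change ((∫ x, ‖f x‖ ^ 2 ∂ν : ℝ) : ℂ) = ((‖T2 ν f‖ : ℝ) : ℂ) ^ 2 at h1
  exact_mod_cast h1.symm

theorem norm_T2_mul_le (g s : C(X, ℂ)) : ‖T2 ν (g * s)‖ ≤ ‖g‖ * ‖T2 ν s‖ := by
  apply le_of_sq_le_sq _ (by positivity)
  rw [mul_pow, norm_T2_sq, norm_T2_sq, ← integral_const_mul]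
  apply integral_mono
  · exact ((ContinuousMap.continuous _).norm.pow 2).integrable_of_hasCompactSupport
      (HasCompactSupport.of_compactSpace _)
  · exact (((ContinuousMap.continuous _).norm.pow 2).integrable_of_hasCompactSupport
      (HasCompactSupport.of_compactSpace _)).const_mul _
  · intro x
    simp only [ContinuousMap.mul_apply, norm_mul, mul_pow]
    have := g.norm_coe_le_norm x
    gcongr

/-- vectors of continuous functions in the Hilbert sum of copies of `L²` -/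
def jm (ι : Type) [Fintype ι] : (ι → C(X, ℂ)) →ₗ[ℂ] PiLp 2 (fun _ : ι => Lp ℂ 2 ν) :=
  (WithLp.linearEquiv 2 ℂ (ι → Lp ℂ 2 ν)).symm.toLinearMap.comp
    (LinearMap.pi fun i => (T2 ν).comp (LinearMap.proj i))

section vec
variable {ι ι' : Type} [Fintype ι] [Fintype ι']

@[simp] theorem jm_apply (f : ι → C(X, ℂ)) (i : ι) : jm ν ι f i = T2 ν (f i) := rfl

theorem inner_jm (f g : ι → C(X, ℂ)) :
    ⟪jm ν ι f, jm ν ι g⟫_ℂ = ∫ x, (star f ⬝ᵥ g) x ∂ν := by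
  rw [PiLp.inner_apply]
  simp only [jm_apply, inner_T2]
  rw [← integral_finsetSum]
  · congr 1
    ext x
    simp only [dotProduct, ContinuousMap.coe_sum, Finset.sum_apply, ContinuousMap.mul_apply,
      Pi.star_apply, ContinuousMap.star_apply]
    refine Finset.sum_congr rfl fun i _ => ?_
    rw [mul_comm]; rfl
  · intro i _
    exact ((ContinuousMap.continuous (g i)).mul
      (Complex.continuous_conj.comp (ContinuousMap.continuous (f i)))).integrable_of_hasCompactSupport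
      (HasCompactSupport.of_compactSpace _)

theorem norm_jm_sq (f : ι → C(X, ℂ)) : ‖jm ν ι f‖ ^ 2 = ∑ i, ‖T2 ν (f i)‖ ^ 2 := by
  rw [PiLp.norm_sq_eq_of_L2]
  rfl

theorem norm_T2_le_jm (f : ι → C(X, ℂ)) (i : ι) : ‖T2 ν (f i)‖ ≤ ‖jm ν ι f‖ := by
  apply le_of_sq_le_sq _ (norm_nonneg _)
  rw [norm_jm_sq]
  exact Finset.single_le_sum (f := fun i => ‖T2 ν (f i)‖ ^ 2) (fun i _ => sq_nonneg _)
    (Finset.mem_univ i)

theorem norm_jm_le_sum (f : ι → C(X, ℂ)) : ‖jm ν ι f‖ ≤ ∑ i, ‖T2 ν (f i)‖ := by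
  apply le_of_sq_le_sq _ (Finset.sum_nonneg fun i _ => norm_nonneg _)
  rw [norm_jm_sq]
  exact Finset.sum_sq_le_sq_sum_of_nonneg fun i _ => norm_nonneg _

/-- the action of a matrix of functions -/
def act (U : Matrix ι' ι C(X, ℂ)) : (ι → C(X, ℂ)) →ₗ[ℂ] (ι' → C(X, ℂ)) :=
  (Matrix.mulVecLin U).restrictScalars ℂ

@[simp] theorem act_apply (U : Matrix ι' ι C(X, ℂ)) (f : ι → C(X, ℂ)) : act U f = U *ᵥ f := rfl

theorem act_sym (e : Matrix ι ι C(X, ℂ)) (he : eᴴ = e) (f g : ι → C(X, ℂ)) :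
    ⟪jm ν ι (act e f), jm ν ι g⟫_ℂ = ⟪jm ν ι f, jm ν ι (act e g)⟫_ℂ := by
  rw [inner_jm, inner_jm, act_apply, act_apply, Matrix.star_mulVec, he, Matrix.dotProduct_mulVec]

theorem act_idem (e : Matrix ι ι C(X, ℂ)) (he : eᴴ = e) (hi : e * e = e) (f : ι → C(X, ℂ)) :
    ⟪jm ν ι (act e f), jm ν ι (act e f)⟫_ℂ = ⟪jm ν ι (act e f), jm ν ι f⟫_ℂ := by
  have h1 : act e (act e f) = act e f := by
    rw [act_apply, act_apply, Matrix.mulVec_mulVec, hi]
  rw [← act_sym ν e he, h1]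

theorem act_norm_le (e : Matrix ι ι C(X, ℂ)) (he : eᴴ = e) (hi : e * e = e) (f : ι → C(X, ℂ)) :
    ‖jm ν ι (act e f)‖ ≤ ‖jm ν ι f‖ := by
  have h1 := act_idem ν e he hi f
  rw [inner_self_eq_norm_sq_to_K] at h1
  have h2 : ‖jm ν ι (act e f)‖ ^ 2 ≤ ‖jm ν ι (act e f)‖ * ‖jm ν ι f‖ := by
    have h3 := norm_inner_le_norm (𝕜 := ℂ) (jm ν ι (act e f)) (jm ν ι f)
    rw [← h1] at h3
    refine le_trans (le_of_eq ?_) h3
    rw [norm_pow]
    simp
  have h4 := norm_nonneg (jm ν ι (act e f))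
  rcases h4.eq_or_lt with h5 | h5
  · rw [← h5]; exact norm_nonneg _
  · nlinarith

theorem act_bound (U : Matrix ι' ι C(X, ℂ)) :
    ∃ C : ℝ, 0 ≤ C ∧ ∀ f, ‖jm ν ι' (act U f)‖ ≤ C * ‖jm ν ι f‖ := by
  refine ⟨∑ i, ∑ j, ‖U i j‖, by positivity, fun f => ?_⟩
  refine (norm_jm_le_sum ν _).trans ?_
  rw [Finset.sum_mul]
  apply Finset.sum_le_sum
  intro i _
  rw [act_apply, Matrix.mulVec, dotProduct, map_sum, Finset.sum_mul]
  refine (norm_sum_le _ _).trans ?_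
  apply Finset.sum_le_sum
  intro j _
  refine (norm_T2_mul_le ν _ _).trans ?_
  have := norm_T2_le_jm ν f j
  gcongr

end vec

end

end Pool.Agent.TH306.IX
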