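import Pool.Agent.TH306.IX.Sys

set_option autoImplicit false
set_option linter.unusedSectionVars false
set_option linter.unusedVariables false

/-!
# Project SD, job K3: operations on bundles
-/

namespace Pool.Agent.TH306.IX

open Module MeasureTheory Filter
open scoped InnerProductSpace Matrix

noncomputable section

section transfer

variable {W₀ : Type*} [AddCommGroup W₀] [Module ℂ W₀]
variable {H' W' : Type*} [NormedAddCommGroup H'] [InnerProductSpace ℂ H'] [AddCommGroup W']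
  [Module ℂ W']

theorem DecS.transfer {j' : W' →ₗ[ℂ] H'} {E' : W' →ₗ[ℂ] W'} {V' : Submodule ℂ W'} {δ : ℝ}
    (Φ : W₀ →ₗ[ℂ] W') (N : W₀ → ℝ) (hN : ∀ w, ‖j' (Φ w)‖ = N w) (E₀ : W₀ → W₀)
    (hE : ∀ w, E' (Φ w) = Φ (E₀ w)) {V₀ S₀ T₀ : Submodule ℂ W₀} (hV : V' = V₀.map Φ)
    (hinj : ∀ w ∈ V₀, Φ w = 0 → w = 0) (hST : S₀ ⊓ T₀ = ⊥) (hS : S₀ ⊔ T₀ = V₀)
    (estS : ∀ w ∈ S₀, N (E₀ w - w) ≤ δ * N w) (estT : ∀ w ∈ T₀, N (E₀ w) ≤ δ * N w) :
    DecS j' E' V' (S₀.map Φ) (T₀.map Φ) δ ∧ finrank ℂ (S₀.map Φ) = finrank ℂ S₀ := by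
  have hS0 : S₀ ≤ V₀ := hS ▸ le_sup_left
  have hT0 : T₀ ≤ V₀ := hS ▸ le_sup_right
  refine ⟨⟨?_, ?_, ?_, ?_, ?_, ?_⟩, ?_⟩
  · rw [hV]; exact Submodule.map_mono hS0
  · rw [hV]; exact Submodule.map_mono hT0
  · rw [eq_bot_iff]
    rintro x ⟨⟨s, hs, rfl⟩, ⟨t, ht, hst⟩⟩
    have h1 : s - t = 0 := by
      apply hinj _ (V₀.sub_mem (hS0 hs) (hT0 ht))
      rw [map_sub, hst, sub_self]
    have h2 : s = t := sub_eq_zero.1 h1
    have h3 : s ∈ S₀ ⊓ T₀ := ⟨hs, h2 ▸ ht⟩
    rw [hST, Submodule.mem_bot] at h3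
    rw [h3, map_zero]
    exact Submodule.zero_mem _
  · rw [← Submodule.map_sup, hS, hV]
  · rintro _ ⟨s, hs, rfl⟩
    rw [hE, ← map_sub, ← map_sub, hN, hN]
    exact estS s hs
  · rintro _ ⟨s, hs, rfl⟩
    rw [hE, hN, hN]
    exact estT s hs
  · have h1 : S₀.map Φ = LinearMap.range (Φ.domRestrict S₀) := by
      ext x
      simp only [Submodule.mem_map, LinearMap.mem_range, LinearMap.domRestrict_apply, Subtype.exists,
        exists_prop]
    rw [h1, LinearMap.finrank_range_of_inj]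
    rw [injective_iff_map_eq_zero]
    intro x hx
    exact Subtype.ext (hinj _ (hS0 x.2) hx)

end transfer

variable {X : Type} [TopologicalSpace X] [CompactSpace X] [MeasurableSpace X] [BorelSpace X]
  {ν : Measure X} [IsFiniteMeasure ν] {Λ : Type} [AddCommGroup Λ] {S : Sys X ν Λ}

theorem norm_jm_comp {ι ι' : Type} [Fintype ι] [Fintype ι'] (f : ι' ≃ ι) (g : ι → C(X, ℂ)) :
    ‖jm ν ι' (g ∘ f)‖ = ‖jm ν ι g‖ := by
  have h : ‖jm ν ι' (g ∘ f)‖ ^ 2 = ‖jm ν ι g‖ ^ 2 := by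
    rw [norm_jm_sq, norm_jm_sq]
    exact Equiv.sum_comp f (fun i => ‖T2 ν (g i)‖ ^ 2)
  exact (pow_left_inj₀ (norm_nonneg _) (norm_nonneg _) two_ne_zero).1 h

/-- reindexed and shifted bundle -/
def Bd.IsShift (E A : Bd S) (m : Λ) : Prop :=
  ∃ f : E.ι ≃ A.ι, (∀ i, E.a i = A.a (f i) + m) ∧ E.e = A.e.submatrix f f

theorem Bd.idx_shift (E A : Bd S) (m : Λ) (h : E.IsShift A m) :
    ∀ᶠ k in S.F, E.idx k = A.idx (k + m) := by
  obtain ⟨f, ha, he⟩ := h
  filter_upwards [(S.tF m).eventually (A.idx_spec (δ := 1/4) (by norm_num))] with k ⟨P, Q, h1, h2⟩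
  obtain ⟨a1, a2, a3, a4, a5, a6⟩ := h1
  have h3 : E.Dec k (P.map (LinearMap.funLeft ℂ C(X, ℂ) f)) (Q.map (LinearMap.funLeft ℂ C(X, ℂ) f))
      (1/4) ∧ finrank ℂ (P.map (LinearMap.funLeft ℂ C(X, ℂ) f)) = finrank ℂ P := by
    refine DecS.transfer (V₀ := S.V A.a (k + m)) (LinearMap.funLeft ℂ C(X, ℂ) f)
      (fun w => ‖jm ν A.ι w‖) ?_ (act A.e) ?_ ?_ ?_ a3 a4 ?_ ?_
    · intro w; exact norm_jm_comp f w
    · intro w
      show E.e *ᵥ (w ∘ f) = (A.e *ᵥ w) ∘ f
      rw [he, Matrix.submatrix_mulVec_equiv]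
      congr 2
      funext i
      simp
    · ext w
      rw [S.mem_V, Submodule.mem_map]
      constructor
      · intro hw
        refine ⟨w ∘ f.symm, ?_, ?_⟩
        · rw [S.mem_V]
          intro i
          have := hw (f.symm i)
          rw [ha, Equiv.apply_symm_apply] at this
          have e : k + m + A.a i = k + (A.a i + m) := by abel
          rw [e]; exact this
        · funext i; simp [LinearMap.funLeft_apply]
      · rintro ⟨w', hw', rfl⟩ i
        rw [ha]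
        have := S.mem_V.1 hw' (f i)
        have e : k + (A.a (f i) + m) = k + m + A.a (f i) := by abel
        rw [e]; exact this
    · intro w _ hw
      funext i
      have := congrFun hw (f.symm i)
      simpa [LinearMap.funLeft_apply] using this
    · intro w hw
      rw [map_sub]; exact a5 w hw
    · exact a6
  rw [E.idx_eq h3.1 le_rfl, h3.2, h2]

/-- the product of submodules -/
def prodEq {M M' : Type*} [AddCommGroup M] [Module ℂ M] [AddCommGroup M'] [Module ℂ M']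
    (P : Submodule ℂ M) (P' : Submodule ℂ M') : (P.prod P') ≃ₗ[ℂ] P × P' where
  toFun x := (⟨x.1.1, x.2.1⟩, ⟨x.1.2, x.2.2⟩)
  invFun y := ⟨(y.1.1, y.2.1), ⟨y.1.2, y.2.2⟩⟩
  left_inv x := rfl
  right_inv y := rfl
  map_add' x y := rfl
  map_smul' c x := rfl

/-- direct sum of bundles -/
def Bd.IsSum (E A B : Bd S) : Prop :=
  ∃ f : E.ι ≃ A.ι ⊕ B.ι, (∀ i, E.a i = Sum.elim A.a B.a (f i)) ∧
    E.e = (Matrix.fromBlocks A.e 0 0 B.e).submatrix f f

theorem norm_jm_elim {ι ι' : Type} [Fintype ι] [Fintype ι'] (g : ι → C(X, ℂ)) (g' : ι' → C(X, ℂ)) :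
    ‖jm ν (ι ⊕ ι') (Sum.elim g g')‖ = √(‖jm ν ι g‖ ^ 2 + ‖jm ν ι' g'‖ ^ 2) := by
  rw [eq_comm, Real.sqrt_eq_iff_mul_self_eq (by positivity) (norm_nonneg _), ← pow_two,
    norm_jm_sq, norm_jm_sq, norm_jm_sq, Fintype.sum_sum_type]
  rfl

theorem Bd.idx_sum (E A B : Bd S) (h : E.IsSum A B) :
    ∀ᶠ k in S.F, E.idx k = A.idx k + B.idx k := by
  obtain ⟨f, ha, he⟩ := h
  filter_upwards [A.idx_spec (δ := 1/4) (by norm_num), B.idx_spec (δ := 1/4) (by norm_num)]
    with k ⟨P, Q, h1, h2⟩ ⟨P', Q', h1', h2'⟩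
  obtain ⟨a1, a2, a3, a4, a5, a6⟩ := h1
  obtain ⟨b1, b2, b3, b4, b5, b6⟩ := h1'
  let Φ : ((A.ι → C(X, ℂ)) × (B.ι → C(X, ℂ))) →ₗ[ℂ] (E.ι → C(X, ℂ)) :=
    { toFun := fun w => (Sum.elim w.1 w.2) ∘ f
      map_add' := by
        intro w w'
        funext i
        simp only [Function.comp_apply, Pi.add_apply]
        rcases f i with i | i <;> simp
      map_smul' := by
        intro c w
        funext i
        simp only [Function.comp_apply, Pi.smul_apply, RingHom.id_apply]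
        rcases f i with i | i <;> simp }
  have hΦ : ∀ w, Φ w = (Sum.elim w.1 w.2) ∘ f := fun w => rfl
  have fd1 := Submodule.finiteDimensional_of_le a1
  have fd2 := Submodule.finiteDimensional_of_le b1
  have h3 : E.Dec k ((P.prod P').map Φ) ((Q.prod Q').map Φ)
      (1/4) ∧ finrank ℂ ((P.prod P').map Φ) = finrank ℂ (P.prod P') := by
    refine DecS.transfer (V₀ := (S.V A.a k).prod (S.V B.a k)) Φ
      (fun w => √(‖jm ν A.ι w.1‖ ^ 2 + ‖jm ν B.ι w.2‖ ^ 2)) ?_
      (fun w => (act A.e w.1, act B.e w.2)) ?_ ?_ ?_ ?_ ?_ ?_ ?_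
    · intro w
      rw [hΦ, norm_jm_comp, norm_jm_elim]
    · intro w
      rw [hΦ, hΦ, act_apply, he, Matrix.submatrix_mulVec_equiv]
      have e1 : (Sum.elim w.1 w.2 ∘ f) ∘ f.symm = Sum.elim w.1 w.2 := by funext i; simp
      rw [e1, Matrix.fromBlocks_mulVec]
      simp
    · ext w
      rw [S.mem_V, Submodule.mem_map]
      constructor
      · intro hw
        refine ⟨(fun i => w (f.symm (Sum.inl i)), fun i => w (f.symm (Sum.inr i))), ?_, ?_⟩
        · rw [Submodule.mem_prod]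
          constructor
          · rw [S.mem_V]
            intro i
            have := hw (f.symm (Sum.inl i))
            rwa [ha, Equiv.apply_symm_apply] at this
          · rw [S.mem_V]
            intro i
            have := hw (f.symm (Sum.inr i))
            rwa [ha, Equiv.apply_symm_apply] at this
        · rw [hΦ]
          funext i
          simp only [Function.comp_apply]
          have h0 : f.symm (f i) = i := f.symm_apply_apply i
          rcases h : f i with l | l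
          · rw [h] at h0
            simp only [Sum.elim_inl]
            rw [h0]
          · rw [h] at h0
            simp only [Sum.elim_inr]
            rw [h0]
      · rintro ⟨w', hw', rfl⟩ i
        rw [Submodule.mem_prod] at hw'
        rw [ha, hΦ, Function.comp_apply]
        rcases f i with l | l
        · exact S.mem_V.1 hw'.1 l
        · exact S.mem_V.1 hw'.2 l
    · intro w _ hw
      rw [hΦ] at hw
      ext1
      · funext i
        have := congrFun hw (f.symm (Sum.inl i))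
        simpa using this
      · funext i
        have := congrFun hw (f.symm (Sum.inr i))
        simpa using this
    · rw [Submodule.prod_inf_prod, a3, b3, Submodule.prod_bot]
    · rw [Submodule.prod_sup_prod, a4, b4]
    · intro w hw
      rw [Submodule.mem_prod] at hw
      have k1 := a5 _ hw.1
      have k2 := b5 _ hw.2
      rw [Real.sqrt_le_left (by positivity), mul_pow, Real.sq_sqrt (by positivity)]
      simp only [Prod.fst_sub, Prod.snd_sub, map_sub] at *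
      have k3 : ‖(jm ν A.ι) ((act A.e) w.1) - (jm ν A.ι) w.1‖ ^ 2 ≤ (1 / 4 * ‖(jm ν A.ι) w.1‖) ^ 2 := by
        gcongr
      have k4 : ‖(jm ν B.ι) ((act B.e) w.2) - (jm ν B.ι) w.2‖ ^ 2 ≤ (1 / 4 * ‖(jm ν B.ι) w.2‖) ^ 2 := by
        gcongr
      linarith [mul_pow (1/4 : ℝ) ‖(jm ν A.ι) w.1‖ 2, mul_pow (1/4 : ℝ) ‖(jm ν B.ι) w.2‖ 2]
    · intro w hw
      rw [Submodule.mem_prod] at hw
      have k1 := a6 _ hw.1
      have k2 := b6 _ hw.2
      rw [Real.sqrt_le_left (by positivity), mul_pow, Real.sq_sqrt (by positivity)]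
      have k3 : ‖(jm ν A.ι) ((act A.e) w.1)‖ ^ 2 ≤ (1 / 4 * ‖(jm ν A.ι) w.1‖) ^ 2 := by
        gcongr
      have k4 : ‖(jm ν B.ι) ((act B.e) w.2)‖ ^ 2 ≤ (1 / 4 * ‖(jm ν B.ι) w.2‖) ^ 2 := by
        gcongr
      linarith [mul_pow (1/4 : ℝ) ‖(jm ν A.ι) w.1‖ 2, mul_pow (1/4 : ℝ) ‖(jm ν B.ι) w.2‖ 2]
  have h4 : finrank ℂ (P.prod P') = finrank ℂ P + finrank ℂ P' := by
    rw [← Module.finrank_prod]
    exact (prodEq P P').finrank_eq
  rw [E.idx_eq h3.1 le_rfl, h3.2, h4, h2, h2']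

/-- trivial bundles -/
theorem Bd.idx_one (A : Bd S) (h : A.e = 1) (k : Λ) :
    A.idx k = ∑ i, finrank ℂ (S.Hc (k + A.a i)) := by
  have h1 : A.Dec k (S.V A.a k) ⊥ (1/4) := by
    refine ⟨le_rfl, bot_le, inf_bot_eq _, sup_bot_eq _, ?_, ?_⟩
    · intro f _
      rw [act_apply, h, Matrix.one_mulVec, sub_self, norm_zero]
      positivity
    · intro f hf
      rw [Submodule.mem_bot] at hf
      rw [hf, map_zero, map_zero, norm_zero, mul_zero]
  rw [A.idx_eq h1 le_rfl, S.finrank_V]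

end

end Pool.Agent.TH306.IX
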