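import Pool.Agent.TH306.IX.L2

set_option autoImplicit false
set_option linter.unusedSectionVars false
set_option linter.unusedVariables false

/-!
# Project SD, job K3: bundles for an abstract system of levels
-/

namespace Pool.Agent.TH306.IX

open Module MeasureTheory Filter
open scoped InnerProductSpace Matrix

noncomputable section

/-- A system of levels: finite dimensional spaces of continuous functions, with asymptotically
multiplicative Toeplitz quantization. -/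
structure Sys (X : Type) [TopologicalSpace X] [CompactSpace X] [MeasurableSpace X] [BorelSpace X]
    (ν : Measure X) [IsFiniteMeasure ν] (Λ : Type) [AddCommGroup Λ] where
  Hc : Λ → Submodule ℂ C(X, ℂ)
  fd : ∀ l, FiniteDimensional ℂ (Hc l)
  df : ∀ l, ∀ s ∈ Hc l, T2 ν s = 0 → s = 0
  F : Filter Λ
  tF : ∀ c, Tendsto (fun k => k + c) F F
  hom : Λ → C(X, ℂ) → Prop
  near : ∀ m g, hom m g → ∀ ε : ℝ, 0 < ε → ∀ᶠ k in F, ∀ s ∈ Hc k, ∃ t ∈ Hc (k + m),
    ‖T2 ν (g * s - t)‖ ≤ ε * ‖T2 ν s‖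

variable {X : Type} [TopologicalSpace X] [CompactSpace X] [MeasurableSpace X] [BorelSpace X]
  {ν : Measure X} [IsFiniteMeasure ν] {Λ : Type} [AddCommGroup Λ] (S : Sys X ν Λ)

attribute [instance] Sys.fd

section V
variable {ι ι' : Type} [Fintype ι] [Fintype ι'] [DecidableEq ι] [DecidableEq ι']

/-- the space of vectors of level `k` -/
def Sys.V (a : ι → Λ) (k : Λ) : Submodule ℂ (ι → C(X, ℂ)) :=
  Submodule.pi Set.univ (fun i => S.Hc (k + a i))

theorem Sys.mem_V {a : ι → Λ} {k : Λ} {f : ι → C(X, ℂ)} :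
    f ∈ S.V a k ↔ ∀ i, f i ∈ S.Hc (k + a i) := by
  simp [Sys.V, Submodule.mem_pi]

/-- `V` as a product -/
def Sys.Veq (a : ι → Λ) (k : Λ) : S.V a k ≃ₗ[ℂ] (∀ i, S.Hc (k + a i)) where
  toFun f i := ⟨f.1 i, S.mem_V.1 f.2 i⟩
  invFun g := ⟨fun i => (g i).1, S.mem_V.2 fun i => (g i).2⟩
  left_inv f := rfl
  right_inv g := rfl
  map_add' f g := rfl
  map_smul' c f := rfl

instance Sys.fdV (a : ι → Λ) (k : Λ) : FiniteDimensional ℂ (S.V a k) :=
  (S.Veq a k).symm.finiteDimensional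

theorem Sys.finrank_V (a : ι → Λ) (k : Λ) :
    finrank ℂ (S.V a k) = ∑ i, finrank ℂ (S.Hc (k + a i)) := by
  rw [(S.Veq a k).finrank_eq, Module.finrank_pi_fintype]

theorem Sys.V_df {a : ι → Λ} {k : Λ} : ∀ f ∈ S.V a k, jm ν ι f = 0 → f = 0 := by
  intro f hf h0
  funext i
  apply S.df _ _ (S.mem_V.1 hf i)
  rw [← jm_apply, h0]
  rfl

theorem Sys.near_mat {a : ι → Λ} {a' : ι' → Λ} (U : Matrix ι' ι C(X, ℂ))
    (hU : ∀ i j, S.hom (a' i - a j) (U i j)) {ε : ℝ} (hε : 0 < ε) :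
    ∀ᶠ k in S.F, ∀ f ∈ S.V a k, ∃ g ∈ S.V a' k,
      ‖jm ν ι' (act U f) - jm ν ι' g‖ ≤ ε * ‖jm ν ι f‖ := by
  obtain ⟨ε', hε', hε2⟩ : ∃ ε' : ℝ, 0 < ε' ∧
      (Fintype.card ι' : ℝ) * ((Fintype.card ι : ℝ) * ε') ≤ ε := by
    refine ⟨ε / ((Fintype.card ι' : ℝ) * (Fintype.card ι : ℝ) + 1), by positivity, ?_⟩
    rw [← mul_assoc, mul_div_assoc']
    rw [div_le_iff₀ (by positivity)]
    nlinarith
  have h1 : ∀ i j, ∀ᶠ k in S.F, ∀ s ∈ S.Hc (k + a j), ∃ t ∈ S.Hc (k + a' i),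
      ‖T2 ν (U i j * s - t)‖ ≤ ε' * ‖T2 ν s‖ := by
    intro i j
    have h2 := (S.tF (a j)).eventually (S.near _ _ (hU i j) ε' hε')
    filter_upwards [h2] with k hk s hs
    obtain ⟨t, ht, h3⟩ := hk s hs
    refine ⟨t, ?_, h3⟩
    have : k + a j + (a' i - a j) = k + a' i := by abel
    rwa [this] at ht
  have h2 : ∀ᶠ k in S.F, ∀ i j, ∀ s ∈ S.Hc (k + a j), ∃ t ∈ S.Hc (k + a' i),
      ‖T2 ν (U i j * s - t)‖ ≤ ε' * ‖T2 ν s‖ := by
    rw [eventually_all]; intro i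
    rw [eventually_all]; intro j
    exact h1 i j
  filter_upwards [h2] with k hk f hf
  choose! t ht1 ht2 using hk
  refine ⟨fun i => ∑ j, t i j (f j), ?_, ?_⟩
  · rw [S.mem_V]
    intro i
    exact Submodule.sum_mem _ fun j _ => ht1 i j _ (S.mem_V.1 hf j)
  · rw [← map_sub]
    refine (norm_jm_le_sum ν _).trans ?_
    calc ∑ i, ‖T2 ν ((act U f - fun i => ∑ j, t i j (f j)) i)‖
        ≤ ∑ i : ι', (Fintype.card ι : ℝ) * ε' * ‖jm ν ι f‖ := by
          apply Finset.sum_le_sum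
          intro i _
          have e1 : (act U f - fun i => ∑ j, t i j (f j)) i = ∑ j, (U i j * f j - t i j (f j)) := by
            rw [Finset.sum_sub_distrib]; rfl
          rw [e1, map_sum]
          refine (norm_sum_le _ _).trans ?_
          calc ∑ j, ‖T2 ν (U i j * f j - t i j (f j))‖ ≤ ∑ j : ι, ε' * ‖jm ν ι f‖ := by
                apply Finset.sum_le_sum
                intro j _
                refine (ht2 i j _ (S.mem_V.1 hf j)).trans ?_
                have := norm_T2_le_jm ν f j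
                gcongr
            _ = _ := by
                rw [Finset.sum_const, Finset.card_univ, nsmul_eq_mul, mul_assoc]
      _ = (Fintype.card ι' : ℝ) * ((Fintype.card ι : ℝ) * ε') * ‖jm ν ι f‖ := by
          rw [Finset.sum_const, Finset.card_univ, nsmul_eq_mul]; ring
      _ ≤ ε * ‖jm ν ι f‖ := by gcongr

end V

/-- a bundle -/
structure Bd where
  ι : Type
  fin : Fintype ι
  dec : DecidableEq ι
  a : ι → Λ
  e : Matrix ι ι C(X, ℂ)
  idem : e * e = e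
  herm : eᴴ = e
  hom : ∀ i j, S.hom (a i - a j) (e i j)

attribute [instance] Bd.fin Bd.dec

variable {S}

/-- the decomposition of the sections of level `k` -/
def Bd.Dec (A : Bd S) (k : Λ) (P Q : Submodule ℂ (A.ι → C(X, ℂ))) (δ : ℝ) : Prop :=
  DecS (jm ν A.ι) (act A.e) (S.V A.a k) P Q δ

theorem Bd.exists_dec (A : Bd S) {δ : ℝ} (hδ : 0 < δ) : ∀ᶠ k in S.F, ∃ P Q, A.Dec k P Q δ := by
  have h1 := S.near_mat A.e A.hom (ε := min (δ / 3) 1) (by positivity)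
  filter_upwards [h1] with k hk
  obtain ⟨P, Q, h⟩ := core_dec (jm ν A.ι) (S.V A.a k) S.V_df (act A.e)
    (fun f _ g _ => act_sym ν A.e A.herm f g) (fun f _ => act_idem ν A.e A.herm A.idem f)
    (min (δ / 3) 1) (by positivity) (min_le_right _ _) hk
  refine ⟨P, Q, DecS.mono h ?_⟩
  have := min_le_left (δ / 3) 1
  linarith

open Classical in
/-- the index -/
def Bd.idx (A : Bd S) (k : Λ) : ℕ :=
  if h : ∃ P Q, A.Dec k P Q (1/4) then finrank ℂ h.choose else 0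

theorem Bd.idx_eq (A : Bd S) {k : Λ} {P Q : Submodule ℂ (A.ι → C(X, ℂ))} {δ : ℝ}
    (h : A.Dec k P Q δ) (hδ : δ ≤ 1 / 4) : A.idx k = finrank ℂ P := by
  have h1 : ∃ P Q, A.Dec k P Q (1/4) := ⟨P, Q, DecS.mono h hδ⟩
  rw [Bd.idx, dif_pos h1]
  obtain ⟨Q', h2⟩ := h1.choose_spec
  exact DecS.unique S.V_df le_rfl hδ h2 h

theorem Bd.idx_spec (A : Bd S) {δ : ℝ} (hδ : 0 < δ) : ∀ᶠ k in S.F, ∃ P Q, A.Dec k P Q δ ∧
    finrank ℂ P = A.idx k := by
  filter_upwards [A.exists_dec (δ := min δ (1/4)) (by positivity)] with k ⟨P, Q, h⟩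
  exact ⟨P, Q, DecS.mono h (min_le_left _ _), (A.idx_eq h (min_le_right _ _)).symm⟩

theorem Bd.idx_le_of_iso (A B : Bd S) (u : Matrix B.ι A.ι C(X, ℂ)) (v : Matrix A.ι B.ι C(X, ℂ))
    (hvu : v * u = A.e) (huv : u * v = B.e) (hu : ∀ i j, S.hom (B.a i - A.a j) (u i j)) :
    ∀ᶠ k in S.F, A.idx k ≤ B.idx k := by
  obtain ⟨C1, hC1, hb1⟩ := act_bound ν u
  obtain ⟨C2, hC2, hb2⟩ := act_bound ν v
  set C := C1 + C2 with hC
  have hC0 : 0 ≤ C := by positivity
  obtain ⟨δ, hδ0, hδ1⟩ : ∃ δ : ℝ, 0 < δ ∧ C * (δ * C + δ) + δ < 1 := by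
    refine ⟨1 / (2 * (C * (C + 1) + 1)), by positivity, ?_⟩
    have h1 : C * (1 / (2 * (C * (C + 1) + 1)) * C + 1 / (2 * (C * (C + 1) + 1))) +
        1 / (2 * (C * (C + 1) + 1)) = 1 / 2 := by
      field_simp
    rw [h1]; norm_num
  filter_upwards [A.idx_spec hδ0, B.idx_spec hδ0, S.near_mat u hu hδ0] with k ⟨P, Q, h1, h2⟩
    ⟨P', Q', h3, h4⟩ h5
  rw [← h2, ← h4]
  refine DecS.compare (C := C) (ε := δ) S.V_df S.V_df h1 h3 hδ0.le (act u) (act v) ?_ ?_ ?_ hC0 ?_ ?_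
    (fun f => act_norm_le ν B.e B.herm B.idem f) h5 hδ1
  · intro f; rw [act_apply, act_apply, act_apply, Matrix.mulVec_mulVec, hvu]
  · intro f; rw [act_apply, act_apply, act_apply, Matrix.mulVec_mulVec, huv]
  · intro f; rw [act_apply, act_apply, Matrix.mulVec_mulVec, A.idem]
  · intro f
    refine (hb1 f).trans ?_
    have : C1 ≤ C := by linarith
    gcongr
  · intro f
    refine (hb2 f).trans ?_
    have : C2 ≤ C := by linarith
    gcongr

end

end Pool.Agent.TH306.IX
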