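import Pool.Agent.TH306.IX.Ops

set_option autoImplicit false
set_option linter.unusedSectionVars false
set_option linter.unusedVariables false

/-!
# Project SD, job K3: pullbacks to a product
-/

namespace Pool.Agent.TH306.IX

open Module MeasureTheory Filter
open scoped InnerProductSpace Matrix

noncomputable section

variable {X₁ : Type} [TopologicalSpace X₁] [CompactSpace X₁] [MeasurableSpace X₁] [BorelSpace X₁]
  {ν₁ : Measure X₁} [IsFiniteMeasure ν₁] {Λ₁ : Type} [AddCommGroup Λ₁] {S₁ : Sys X₁ ν₁ Λ₁}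
variable {X : Type} [TopologicalSpace X] [CompactSpace X] [MeasurableSpace X] [BorelSpace X]
  {ν : Measure X} [IsFiniteMeasure ν] {Λ : Type} [AddCommGroup Λ] {S : Sys X ν Λ}
variable {B : Type} [Fintype B] [DecidableEq B]

theorem norm_sum_ortho (p : C(X₁, ℂ) →ₐ[ℂ] C(X, ℂ)) (m : B → C(X, ℂ)) (c : B → ℝ)
    (horth : ∀ s t β β', ⟪T2 ν (p s * m β), T2 ν (p t * m β')⟫_ℂ =
      if β = β' then (c β : ℂ) * ⟪T2 ν₁ s, T2 ν₁ t⟫_ℂ else 0) (s : B → C(X₁, ℂ)) :
    ‖T2 ν (∑ β, p (s β) * m β)‖ ^ 2 = ∑ β, c β * ‖T2 ν₁ (s β)‖ ^ 2 := by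
  have h1 := inner_self_eq_norm_sq_to_K (𝕜 := ℂ) (T2 ν (∑ β, p (s β) * m β))
  have h2 : ⟪T2 ν (∑ β, p (s β) * m β), T2 ν (∑ β, p (s β) * m β)⟫_ℂ =
      ∑ β, (c β : ℂ) * ⟪T2 ν₁ (s β), T2 ν₁ (s β)⟫_ℂ := by
    rw [map_sum, sum_inner]
    refine Finset.sum_congr rfl fun β _ => ?_
    rw [inner_sum]
    simp only [horth]
    simp
  rw [h2] at h1
  have h3 : ∀ β, ⟪T2 ν₁ (s β), T2 ν₁ (s β)⟫_ℂ = ((‖T2 ν₁ (s β)‖ ^ 2 : ℝ) : ℂ) := by
    intro β
    have := inner_self_eq_norm_sq_to_K (𝕜 := ℂ) (T2 ν₁ (s β))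
    rw [this]
    push_cast
    rfl
  simp only [h3] at h1
  change _ = ((‖T2 ν (∑ β, p (s β) * m β)‖ : ℝ) : ℂ) ^ 2 at h1
  exact_mod_cast h1.symm

theorem Bd.idx_tensor (E : Bd S) (A : Bd S₁) (k : Λ) (k₁ : Λ₁) (f : E.ι ≃ A.ι)
    (p : C(X₁, ℂ) →ₐ[ℂ] C(X, ℂ)) (m : B → C(X, ℂ)) (c : B → ℝ) (hc : ∀ β, 0 < c β)
    (horth : ∀ s t β β', ⟪T2 ν (p s * m β), T2 ν (p t * m β')⟫_ℂ =
      if β = β' then (c β : ℂ) * ⟪T2 ν₁ s, T2 ν₁ t⟫_ℂ else 0)
    (he : E.e = (A.e.map p).submatrix f f)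
    (hH : ∀ i g, g ∈ S.Hc (k + E.a i) ↔ ∃ s : B → C(X₁, ℂ),
      (∀ β, s β ∈ S₁.Hc (k₁ + A.a (f i))) ∧ g = ∑ β, p (s β) * m β)
    {P Q : Submodule ℂ (A.ι → C(X₁, ℂ))} (hP : A.Dec k₁ P Q (1/4)) :
    E.idx k = Fintype.card B * finrank ℂ P := by
  obtain ⟨a1, a2, a3, a4, a5, a6⟩ := hP
  let Φ : (B → (A.ι → C(X₁, ℂ))) →ₗ[ℂ] (E.ι → C(X, ℂ)) :=
    { toFun := fun w i => ∑ β, p (w β (f i)) * m β
      map_add' := by
        intro w w'
        funext i
        simp [add_mul, Finset.sum_add_distrib]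
      map_smul' := by
        intro r w
        funext i
        simp [Finset.smul_sum] }
  have hΦ : ∀ w i, Φ w i = ∑ β, p (w β (f i)) * m β := fun w i => rfl
  have hN : ∀ w, ‖jm ν E.ι (Φ w)‖ ^ 2 = ∑ β, c β * ‖jm ν₁ A.ι (w β)‖ ^ 2 := by
    intro w
    rw [norm_jm_sq]
    simp only [hΦ, norm_sum_ortho p m c horth, norm_jm_sq, Finset.mul_sum]
    rw [Finset.sum_comm]
    refine Finset.sum_congr rfl fun β _ => ?_
    exact Equiv.sum_comp f (fun i => c β * ‖T2 ν₁ (w β i)‖ ^ 2)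
  have hN0 : ∀ w : B → (A.ι → C(X₁, ℂ)), 0 ≤ ∑ β, c β * ‖jm ν₁ A.ι (w β)‖ ^ 2 := by
    intro w
    exact Finset.sum_nonneg fun β _ => mul_nonneg (hc β).le (sq_nonneg _)
  have hN' : ∀ w, ‖jm ν E.ι (Φ w)‖ = √(∑ β, c β * ‖jm ν₁ A.ι (w β)‖ ^ 2) := by
    intro w
    rw [← hN, Real.sqrt_sq (norm_nonneg _)]
  have fd1 := Submodule.finiteDimensional_of_le a1
  let PP : Submodule ℂ (A.ι → C(X₁, ℂ)) → Submodule ℂ (B → (A.ι → C(X₁, ℂ))) := fun P =>
    Submodule.pi Set.univ (fun _ => P)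
  have hPP : ∀ P w, w ∈ PP P ↔ ∀ β, w β ∈ P := by
    intro P w
    simp [PP, Submodule.mem_pi]
  have h3 : E.Dec k ((PP P).map Φ) ((PP Q).map Φ) (1/4) ∧
      finrank ℂ ((PP P).map Φ) = finrank ℂ (PP P) := by
    refine DecS.transfer (V₀ := PP (S₁.V A.a k₁)) Φ
      (fun w => √(∑ β, c β * ‖jm ν₁ A.ι (w β)‖ ^ 2)) hN'
      (fun w β => act A.e (w β)) ?_ ?_ ?_ ?_ ?_ ?_ ?_
    · intro w
      funext i
      rw [hΦ, act_apply, he]
      simp only [act_apply, Matrix.mulVec, dotProduct, Matrix.submatrix_apply, Matrix.map_apply, hΦ,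
        map_sum, map_mul, Finset.mul_sum, Finset.sum_mul]
      rw [Finset.sum_comm]
      refine Finset.sum_congr rfl fun β _ => ?_
      rw [← Equiv.sum_comp f]
      refine Finset.sum_congr rfl fun j _ => ?_
      rw [mul_assoc]
    · ext w
      rw [S.mem_V, Submodule.mem_map]
      constructor
      · intro hw
        have h4 : ∀ i, ∃ s : B → C(X₁, ℂ), (∀ β, s β ∈ S₁.Hc (k₁ + A.a (f i))) ∧
            w i = ∑ β, p (s β) * m β := fun i => (hH i _).1 (hw i)
        choose s hs1 hs2 using h4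
        refine ⟨fun β j => s (f.symm j) β, ?_, ?_⟩
        · rw [hPP]
          intro β
          rw [S₁.mem_V]
          intro j
          have := hs1 (f.symm j) β
          rwa [Equiv.apply_symm_apply] at this
        · funext i
          rw [hΦ, hs2 i]
          refine Finset.sum_congr rfl fun β _ => ?_
          simp
      · rintro ⟨w', hw', rfl⟩ i
        rw [hPP] at hw'
        rw [hH]
        exact ⟨fun β => w' β (f i), fun β => S₁.mem_V.1 (hw' β) _, hΦ _ _⟩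
    · intro w hw h0
      rw [hPP] at hw
      have h4 := hN w
      rw [h0, map_zero, norm_zero, zero_pow two_ne_zero] at h4
      have h5 := (Finset.sum_eq_zero_iff_of_nonneg
        (fun β _ => mul_nonneg (hc β).le (sq_nonneg _))).1 h4.symm
      funext β
      apply S₁.V_df _ (hw β)
      have h6 := h5 β (Finset.mem_univ _)
      rcases mul_eq_zero.1 h6 with h7 | h7
      · exact absurd h7 (hc β).ne'
      · exact norm_eq_zero.1 (pow_eq_zero_iff two_ne_zero |>.1 h7)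
    · ext w
      rw [Submodule.mem_inf, hPP, hPP, Submodule.mem_bot]
      constructor
      · rintro ⟨h4, h5⟩
        funext β
        have : w β ∈ P ⊓ Q := ⟨h4 β, h5 β⟩
        rw [a3] at this
        exact (Submodule.mem_bot ℂ).1 this
      · rintro rfl
        exact ⟨fun β => P.zero_mem, fun β => Q.zero_mem⟩
    · apply le_antisymm
      · apply sup_le
        · intro w hw
          rw [hPP] at hw ⊢
          exact fun β => a1 (hw β)
        · intro w hw
          rw [hPP] at hw ⊢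
          exact fun β => a2 (hw β)
      · intro w hw
        rw [hPP] at hw
        have h4 : ∀ β, ∃ y ∈ P, ∃ z ∈ Q, y + z = w β := by
          intro β
          have := hw β
          rw [← a4] at this
          exact Submodule.mem_sup.1 this
        choose y hy z hz hyz using h4
        rw [Submodule.mem_sup]
        exact ⟨y, (hPP _ _).2 hy, z, (hPP _ _).2 hz, funext hyz⟩
    · intro w hw
      rw [hPP] at hw
      apply Real.sqrt_le_iff.2
      refine ⟨by positivity, ?_⟩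
      rw [mul_pow, Real.sq_sqrt (hN0 w), Finset.mul_sum]
      apply Finset.sum_le_sum
      intro β _
      have k1 := a5 _ (hw β)
      rw [← map_sub] at k1
      have k3 : ‖jm ν₁ A.ι (act A.e (w β) - w β)‖ ^ 2 ≤ (1 / 4 * ‖jm ν₁ A.ι (w β)‖) ^ 2 := by
        gcongr
      have := mul_le_mul_of_nonneg_left k3 (hc β).le
      calc c β * ‖jm ν₁ A.ι (((fun β => act A.e (w β)) - w) β)‖ ^ 2
          = c β * ‖jm ν₁ A.ι (act A.e (w β) - w β)‖ ^ 2 := rfl
        _ ≤ _ := this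
        _ = _ := by ring
    · intro w hw
      rw [hPP] at hw
      apply Real.sqrt_le_iff.2
      refine ⟨by positivity, ?_⟩
      rw [mul_pow, Real.sq_sqrt (hN0 w), Finset.mul_sum]
      apply Finset.sum_le_sum
      intro β _
      have k1 := a6 _ (hw β)
      have k3 : ‖jm ν₁ A.ι (act A.e (w β))‖ ^ 2 ≤ (1 / 4 * ‖jm ν₁ A.ι (w β)‖) ^ 2 := by
        gcongr
      have := mul_le_mul_of_nonneg_left k3 (hc β).le
      calc c β * ‖jm ν₁ A.ι (act A.e (w β))‖ ^ 2 ≤ _ := this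
        _ = _ := by ring
  have h4 : finrank ℂ (PP P) = Fintype.card B * finrank ℂ P := by
    let e : PP P ≃ₗ[ℂ] (B → P) :=
      { toFun := fun x β => ⟨x.1 β, (hPP _ _).1 x.2 β⟩
        invFun := fun y => ⟨fun β => (y β).1, (hPP _ _).2 fun β => (y β).2⟩
        left_inv := fun x => rfl
        right_inv := fun y => rfl
        map_add' := fun x y => rfl
        map_smul' := fun c x => rfl }
    rw [e.finrank_eq, Module.finrank_pi_fintype, Finset.sum_const, Finset.card_univ, smul_eq_mul]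
  rw [E.idx_eq h3.1 le_rfl, h3.2, h4]

end

end Pool.Agent.TH306.IX
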